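import Pool.Agent.H887R3.SL.DefsB

/-!
# Slopes of periodicity (MP_af28f6_lc): assembly
-/

set_option autoImplicit false

namespace Pool.Agent.H887R3.SL

theorem finite_cell (D : ℕ) (A : Type) [Finite A] : Finite (Cell D A) := by
  let f : Cell D A → (Fin D → Bool) × A × Bool × Bool × Bool × Bool × Bool × Bool :=
    fun x => (x.mu, x.c, x.M, x.K, x.S, x.T, x.b, x.cc)
  apply Finite.of_injective f
  intro x y h
  simp only [f, Prod.mk.injEq] at h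
  ext <;> simp_all

theorem t_ASM (hREL : S_REL) (hEVP : S_EVPRIM) (hEVI : S_EVINF) (hS : S_SOUND) (hC : S_COMPL)
    (hLoc : S_LOCAL) (hWin : S_WIN) (hV : S_VCOMP) (hF : S_FIN) :
    ¬ (∀ (d : ℕ), 3 ≤ d → ∀ (k n : ℕ) (F : Set ((Fin d → Fin n) → Fin k)),
      ∃ R : (Fin d → ℤ) × ℕ × ℕ → Prop, ComputablePred R ∧
        ∀ v : Fin d → ℤ,
          (v ≠ 0 ∧ ∃ x : (Fin d → ℤ) → Fin k,
              (∀ z : Fin d → ℤ,
                (fun i : Fin d → Fin n => x (z + (fun j => ((i j : ℕ) : ℤ)))) ∉ F) ∧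
              (∃ w : Fin d → ℤ, w ≠ 0 ∧ ∀ z, x (z + w) = x z) ∧
              ∀ u : Fin d → ℤ, (∀ z, x (z + u) = x z) →
                ∃ a b : ℤ, b ≠ 0 ∧ b • u = a • v)
          ↔ ∃ a : ℕ, ∀ b : ℕ, R (v, a, b)) := by
  intro H
  obtain ⟨E, A, hA, ok, π, hex, hfor⟩ := hREL EV hEVP
  have hfin : Finite (Cell (2 + E) A) := finite_cell _ _
  let i0 : Fin (2 + E) := Fin.castAdd E 0
  let i1 : Fin (2 + E) := Fin.castAdd E 1
  have hne : i0 ≠ i1 := by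
    intro h
    have := congrArg Fin.val h
    simp [i0, i1] at this
  obtain ⟨k, F, hkF⟩ := hWin (2 + E) (Cell (2 + E) A) (Loc ok π i0 i1)
    (fun x x' w w' h hx => hLoc _ _ ok π i0 i1 x x' w w' h hx)
  obtain ⟨R, hR, hRv⟩ := H (2 + E + 4) (by omega) k 3 F
  have key : ∀ k' : ℕ, Slope (2 + E + 4) k 3 F (vf (2 + E) k') ↔
      ∀ a : ℕ, (Nat.Partrec.Code.eval (Denumerable.ofNat Nat.Partrec.Code k') (Nat.pair k' a)).Dom := by
    intro k'
    rw [hkF, ← hEVI k', (hV (2 + E)).2 k']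
    constructor
    · rintro ⟨h1, h2⟩
      exact hS _ A ok π i0 i1 EV hne hfor k' ⟨h1, h2⟩
    · intro h
      obtain ⟨h1, h2⟩ := hC _ A ok π i0 i1 EV hne hex hfor k' h
      exact ⟨h1, h2⟩
  exact hF _ (Slope (2 + E + 4) k 3 F) (vf (2 + E)) (hV (2 + E)).1 key ⟨R, hR, hRv⟩

end Pool.Agent.H887R3.SL
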