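import Pool.Agent.H887R3.SL.Defs

/-!
# Boolean combinations of definable relations
-/

set_option autoImplicit false

namespace Pool.Agent.H887R3.SL

theorem t_BOOL (h1 : S_COMMON) (h2 : S_MAP) : S_BOOL := by
  intro n m R φ h
  obtain ⟨E, hE⟩ := h1 n m R h
  exact ⟨E, h2 _ _ _ _ φ hE⟩

end Pool.Agent.H887R3.SL
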