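import Pool.Agent.H887R3.SL.Defs

/-! Task COMMON (helper114). -/

set_option autoImplicit false

namespace Pool.Agent.H887R3.SL

theorem t_COMMON (h1 : S_MONO) (h2 : S_PI) : S_COMMON := by
  intro n m R hR
  choose E hE using hR
  refine ⟨Finset.univ.sup E, ?_⟩
  exact h2 (n + Finset.univ.sup E) m Bool (fun j w => R j (fun i => w (Fin.castAdd _ i)))
    (fun j => h1 n (E j) _ Bool (R j) (Finset.le_sup (Finset.mem_univ j)) (hE j))

end Pool.Agent.H887R3.SL
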