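import Mathlib

/-!
# Slopes of periodicity (MP_af28f6_lc): definitions and the statements of the tasks

Part A: the calculus of locally definable (forced) functions on `ℕ^D`.
Part B: the shift of finite type on `ℤ^(D+4)`.
-/

set_option autoImplicit false

namespace Pool.Agent.H887R3.SL

/-! ### Part A -/

/-- `w + δ` for a 0/1 vector `δ` -/
def off {D : ℕ} (w : Fin D → ℕ) (δ : Fin D → Bool) : Fin D → ℕ :=
  fun i => w i + (if δ i = true then 1 else 0)

/-- which coordinates are zero -/
def zp {D : ℕ} (w : Fin D → ℕ) : Fin D → Bool := fun i => decide (w i = 0)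

/-- a local rule: the first argument tells which coordinates of the cell are zero, the second one is the
window of the values at the cells `w + δ`, `δ` a 0/1 vector -/
abbrev Rule (D : ℕ) (A : Type) := (Fin D → Bool) → ((Fin D → Bool) → A) → Prop

/-- the configuration `c` obeys the local rule `ok` -/
def Valid {D : ℕ} {A : Type} (ok : Rule D A) (c : (Fin D → ℕ) → A) : Prop :=
  ∀ w, ok (zp w) (fun δ => c (off w δ))

/-- `R` is forced: some local rule over a finite alphabet has a valid configuration, and all its valid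
configurations are mapped to `R` by a fixed map of the alphabet -/
def Forced (D : ℕ) {B : Type} (R : (Fin D → ℕ) → B) : Prop :=
  ∃ (A : Type) (_ : Finite A) (ok : Rule D A) (π : A → B),
    (∃ c, Valid ok c) ∧ ∀ c, Valid ok c → ∀ w, π (c w) = R w

/-- `R` is definable: it is forced after adding auxiliary coordinates on which it does not depend -/
def Def (n : ℕ) (R : (Fin n → ℕ) → Bool) : Prop :=
  ∃ E : ℕ, Forced (n + E) (fun w => R (fun i => w (Fin.castAdd E i)))

/-- the graph of `f` is definable -/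
def DefFun (n : ℕ) (f : (Fin n → ℕ) → ℕ) : Prop :=
  Def (n + 1) (fun w => decide (w (Fin.last n) = f (fun i => w i.castSucc)))

/-- products -/
def S_PROD : Prop := ∀ (D : ℕ) (B B' : Type) (R : (Fin D → ℕ) → B) (R' : (Fin D → ℕ) → B'),
  Forced D R → Forced D R' → Forced D (fun w => (R w, R' w))

/-- finite products -/
def S_PI : Prop := ∀ (D n : ℕ) (B : Type) (R : Fin n → (Fin D → ℕ) → B),
  (∀ i, Forced D (R i)) → Forced D (fun w i => R i w)

/-- images -/
def S_MAP : Prop := ∀ (D : ℕ) (B B' : Type) (R : (Fin D → ℕ) → B) (φ : B → B'),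
  Forced D R → Forced D (fun w => φ (R w))

/-- adding a layer which is determined by a local rule -/
def S_LAYER : Prop := ∀ (D : ℕ) (B B' : Type) (R : (Fin D → ℕ) → B) (Q : (Fin D → ℕ) → B')
  (ok' : (Fin D → Bool) → ((Fin D → Bool) → B) → ((Fin D → Bool) → B') → Prop), Finite B' →
  Forced D R →
  (∀ w, ok' (zp w) (fun δ => R (off w δ)) (fun δ => Q (off w δ))) →
  (∀ Q' : (Fin D → ℕ) → B',
    (∀ w, ok' (zp w) (fun δ => R (off w δ)) (fun δ => Q' (off w δ))) → ∀ w, Q' w = Q w) →
  Forced D Q

/-- adding coordinates and renaming -/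
def S_LIFT : Prop := ∀ (D D' : ℕ) (B : Type) (R : (Fin D → ℕ) → B) (ι : Fin D → Fin D'),
  Function.Injective ι → Forced D R → Forced D' (fun w => R (fun i => w (ι i)))

/-- more auxiliary coordinates -/
def S_MONO : Prop := ∀ (n E E' : ℕ) (B : Type) (R : (Fin n → ℕ) → B), E ≤ E' →
  Forced (n + E) (fun w => R (fun i => w (Fin.castAdd E i))) →
  Forced (n + E') (fun w => R (fun i => w (Fin.castAdd E' i)))

/-- a common number of auxiliary coordinates for finitely many definable functions -/
def S_COMMON : Prop := ∀ (n m : ℕ) (R : Fin m → (Fin n → ℕ) → Bool), (∀ j, Def n (R j)) →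
  ∃ E : ℕ, Forced (n + E) (fun w (j : Fin m) => R j (fun i => w (Fin.castAdd E i)))

/-- boolean combinations -/
def S_BOOL : Prop := ∀ (n m : ℕ) (R : Fin m → (Fin n → ℕ) → Bool) (φ : (Fin m → Bool) → Bool),
  (∀ j, Def n (R j)) → Def n (fun w => φ (fun j => R j w))

/-- renaming of the variables (injective) -/
def S_RENAME : Prop := ∀ (n m : ℕ) (R : (Fin n → ℕ) → Bool) (ι : Fin n → Fin m),
  Function.Injective ι → Def n R → Def m (fun w => R (fun i => w (ι i)))

/-- elimination of variables which have a witness -/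
def S_ELIM : Prop := ∀ (n j : ℕ) (P R : (Fin (n + j) → ℕ) → Bool) (Q : (Fin n → ℕ) → Bool),
  Def (n + j) P → Def (n + j) R →
  (∀ x : Fin n → ℕ, ∃ y : Fin j → ℕ, P (Fin.append x y) = true) →
  (∀ (x : Fin n → ℕ) (y : Fin j → ℕ), P (Fin.append x y) = true → Q x = R (Fin.append x y)) →
  Def n Q

/-- equality is definable -/
def S_DIAG : Prop := Def 2 (fun w => decide (w 0 = w 1))

/-- zero is definable -/
def S_ZERO : Prop := Def 1 (fun w => decide (w 0 = 0))

/-- the successor is definable -/
def S_SUCC : Prop := Def 2 (fun w => decide (w 1 = w 0 + 1))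

/-- composition -/
def S_COMP : Prop := ∀ (m n : ℕ) (f : (Fin n → ℕ) → ℕ) (g : Fin n → (Fin m → ℕ) → ℕ),
  DefFun n f → (∀ i, DefFun m (g i)) → DefFun m (fun x => f (fun i => g i x))

/-- primitive recursion: `F (a, x) = Nat.rec (f x) (fun y r => g (y, r, x)) a` -/
def S_PREC : Prop := ∀ (n : ℕ) (f : (Fin n → ℕ) → ℕ) (g : (Fin (n + 2) → ℕ) → ℕ),
  DefFun n f → DefFun (n + 2) g →
  DefFun (n + 1) (fun v => Nat.rec (motive := fun _ => ℕ) (f (fun i => v i.succ))
    (fun y r => g (Fin.cons y (Fin.cons r (fun i => v i.succ)))) (v 0))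

/-- primitive recursive functions are definable -/
def S_PRIM : Prop := ∀ (n : ℕ) (f : List.Vector ℕ n → ℕ), Nat.Primrec' f →
  DefFun n (fun x => f (List.Vector.ofFn x))

/-- primitive recursive relations are definable -/
def S_REL : Prop := ∀ R : ℕ → ℕ → Bool, Primrec₂ R → Def 2 (fun w => R (w 0) (w 1))

/-! ### The relation -/

/-- `φ_k(k, a')` halts within `j` steps for all `a' ≤ a` -/
def hlt (k a j : ℕ) : Bool :=
  Nat.rec (motive := fun _ => Bool)
    (Nat.Partrec.Code.evaln j (Denumerable.ofNat Nat.Partrec.Code k) (Nat.pair k 0)).isSome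
    (fun a' IH => IH &&
      (Nat.Partrec.Code.evaln j (Denumerable.ofNat Nat.Partrec.Code k) (Nat.pair k (a' + 1))).isSome) a

/-- the events -/
def EV (k n : ℕ) : Bool := hlt k n.unpair.1 (n.unpair.2 + 1) && !hlt k n.unpair.1 n.unpair.2

def S_EVPRIM : Prop := Primrec₂ EV

def S_EVINF : Prop := ∀ k : ℕ, {n | EV k n = true}.Infinite ↔
  ∀ a : ℕ, (Nat.Partrec.Code.eval (Denumerable.ofNat Nat.Partrec.Code k) (Nat.pair k a)).Dom

end Pool.Agent.H887R3.SL
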