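import Mathlib
import Pool.Agent.H887R3.SL.Defs

/-! Composition of definable functions. -/

set_option autoImplicit false

namespace Pool.Agent.H887R3.SL

theorem comp_inj {n k : ℕ} (a : Fin n → Fin k) (b : Fin k) (ha : Function.Injective a)
    (hb : ∀ i, a i ≠ b) : Function.Injective (Fin.snoc (α := fun _ => Fin k) a b) := by
  intro x y
  refine Fin.lastCases ?_ (fun i => ?_) x
  · refine Fin.lastCases ?_ (fun j => ?_) y
    · intro _
      rfl
    · intro h
      rw [Fin.snoc_last, Fin.snoc_castSucc] at h
      exact absurd h.symm (hb j)
  · refine Fin.lastCases ?_ (fun j => ?_) y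
    · intro h
      rw [Fin.snoc_last, Fin.snoc_castSucc] at h
      exact absurd h (hb i)
    · intro h
      rw [Fin.snoc_castSucc, Fin.snoc_castSucc] at h
      rw [ha h]

theorem t_COMP (h1 : S_ELIM) (h2 : S_RENAME) (h3 : S_BOOL) : S_COMP := by
  intro m n f g hf hg
  unfold DefFun
  have key := h1 (m + 1) n
    (fun w => decide (∀ i : Fin n, w (Fin.natAdd (m + 1) i) =
      g i (fun l => w (Fin.castAdd n l.castSucc))))
    (fun w => decide (w (Fin.castAdd n (Fin.last m)) = f (fun i => w (Fin.natAdd (m + 1) i))))
    (fun w => decide (w (Fin.last m) = f (fun i => g i (fun l => w l.castSucc))))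
  apply key
  · have hc : ∀ i : Fin n, Def (m + 1 + n) (fun w => decide (w (Fin.natAdd (m + 1) i) =
        g i (fun l => w (Fin.castAdd n l.castSucc)))) := by
      intro i
      have h4 := h2 (m + 1) (m + 1 + n)
        (fun w => decide (w (Fin.last m) = g i (fun l => w l.castSucc)))
        (Fin.snoc (α := fun _ => Fin (m + 1 + n)) (fun l : Fin m => Fin.castAdd n l.castSucc)
          (Fin.natAdd (m + 1) i)) ?_ (hg i)
      · simpa only [Fin.snoc_last, Fin.snoc_castSucc] using h4
      · apply comp_inj
        · intro a b hab
          exact Fin.castSucc_injective m (Fin.castAdd_injective (m + 1) n hab)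
        · intro l hl
          have h5 := congrArg Fin.val hl
          simp only [Fin.val_castAdd, Fin.val_castSucc, Fin.val_natAdd] at h5
          omega
    have h6 := h3 (m + 1 + n) n _ (fun b => decide (∀ i, b i = true)) hc
    simpa only [decide_eq_true_eq] using h6
  · have h4 := h2 (n + 1) (m + 1 + n)
      (fun w => decide (w (Fin.last n) = f (fun i => w i.castSucc)))
      (Fin.snoc (α := fun _ => Fin (m + 1 + n)) (fun i : Fin n => Fin.natAdd (m + 1) i)
        (Fin.castAdd n (Fin.last m))) ?_ hf
    · simpa only [Fin.snoc_last, Fin.snoc_castSucc] using h4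
    · apply comp_inj
      · intro a b hab
        exact Fin.natAdd_injective n (m + 1) hab
      · intro l hl
        have h5 := congrArg Fin.val hl
        simp only [Fin.val_castAdd, Fin.val_last, Fin.val_natAdd] at h5
        omega
  · intro x
    refine ⟨fun i => g i (fun l => x l.castSucc), ?_⟩
    rw [decide_eq_true_eq]
    intro i
    rw [Fin.append_right]
    simp only [Fin.append_left]
  · intro x y hP
    rw [decide_eq_true_eq] at hP
    simp only [Fin.append_left, Fin.append_right] at hP ⊢
    have h7 : y = fun i => g i (fun l => x l.castSucc) := funext hP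
    rw [h7]

end Pool.Agent.H887R3.SL
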