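import Pool.Agent.H887R3.SL.DefsB

/-!
# Slopes of periodicity (MP_af28f6_lc): completeness
-/

set_option autoImplicit false

namespace Pool.Agent.H887R3.SL

theorem t_COMPL (h1 : S_ODOE) (h2 : S_CVAL) (h3 : S_CPER) : S_COMPL := by
  intro D A ok π i0 i1 R hi hex hR k hk
  obtain ⟨c, hc⟩ := hex
  obtain ⟨b, cc, hodo, hper⟩ := h1 (R k)
  have hP := hper hk
  obtain ⟨hv, hu⟩ := h3 D A i0 i1 c b cc k hi hP
  have hne : vk D (k : ℤ) ≠ 0 := by
    intro h
    have h0 := congrFun h (Sum.inr 2)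
    have h1 : vk D (k : ℤ) (Sum.inr 2) = 1 := by
      unfold vk
      rw [if_neg (by simp), if_pos rfl]
    rw [h1] at h0
    exact one_ne_zero h0
  refine ⟨hne, cfg c b cc i0 i1 k, ?_, ⟨vk D k, hne, hv⟩, ?_⟩
  · refine h2 D A ok π i0 i1 c b cc k (R k) hi hc ?_ hodo
    intro w hw
    rw [hR c hc w, hw]
  · intro u hu'
    obtain ⟨a, ha⟩ := hu u hu'
    exact ⟨a, 1, one_ne_zero, by rw [one_smul]; exact ha⟩

end Pool.Agent.H887R3.SL
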