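import Pool.Agent.H887R3.SL.DefsB

/-!
# Functions constant along some coordinates
-/

set_option autoImplicit false

namespace Pool.Agent.H887R3.SL

theorem t_CONST : S_CONST := by
  classical
  intro ι B _ _ g J hg w w' hw
  have step : ∀ (j : ι), ¬ J j → ∀ (z : ℤ) (w : ι → ℤ), g (w + Pi.single j z) = g w := by
    intro j hj z
    induction z using Int.induction_on with
    | zero => intro w; rw [Pi.single_zero, add_zero]
    | succ i ih =>
      intro w
      rw [Pi.single_add, ← add_assoc, hg _ j hj, ih]
    | pred i ih =>
      intro w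
      have h1 := hg (w + Pi.single j (-(i : ℤ) - 1)) j hj
      rw [← h1, add_assoc, ← Pi.single_add]
      have h2 : (-(i : ℤ) - 1 + 1) = -(i : ℤ) := by ring
      rw [h2, ih]
  have key : ∀ s : Finset ι, (∀ j ∈ s, ¬ J j) →
      g (w + ∑ j ∈ s, Pi.single j (w' j - w j)) = g w := by
    intro s
    induction s using Finset.induction_on with
    | empty => intro _; rw [Finset.sum_empty, add_zero]
    | insert a s ha ih =>
      intro h
      have e : w + ∑ j ∈ insert a s, Pi.single j (w' j - w j) =
          (w + ∑ j ∈ s, Pi.single j (w' j - w j)) + Pi.single a (w' a - w a) := by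
        rw [Finset.sum_insert ha]
        abel
      rw [e, step a (h a (Finset.mem_insert_self _ _)),
        ih fun j hj => h j (Finset.mem_insert_of_mem hj)]
  have h3 := key (Finset.univ.filter fun j => ¬ J j) (fun j hj => (Finset.mem_filter.1 hj).2)
  rw [← h3]
  congr 1
  funext i
  rw [Pi.add_apply, Finset.sum_apply]
  simp only [Pi.single_apply]
  by_cases hi : J i
  · rw [Finset.sum_eq_zero]
    · rw [hw i hi, add_zero]
    · intro j hj
      rw [if_neg]
      rintro rfl
      exact (Finset.mem_filter.1 hj).2 hi
  · have hi' : i ∈ Finset.univ.filter fun j => ¬ J j := Finset.mem_filter.2 ⟨Finset.mem_univ _, hi⟩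
    rw [Finset.sum_ite_eq]
    rw [if_pos hi']
    ring

end Pool.Agent.H887R3.SL
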