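import Pool.Agent.H887R3.SL.DefsB

set_option autoImplicit false

namespace Pool.Agent.H887R3.SL

theorem t_CPER : S_CPER := by
  intro D A i0 i1 c b cc k hne hb
  constructor
  · intro z
    have h0 : ∀ i : Fin D, (z + vk D (k : ℤ)) (Sum.inl i) = z (Sum.inl i) := by
      intro i; simp [vk]
    have hr0 : (z + vk D (k : ℤ)) (Sum.inr 0) = z (Sum.inr 0) := by simp [vk]
    have hr1 : (z + vk D (k : ℤ)) (Sum.inr 1) = z (Sum.inr 1) + k := by simp [vk]
    have hr2 : (z + vk D (k : ℤ)) (Sum.inr 2) = z (Sum.inr 2) + 1 := by simp [vk]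
    have hr3 : (z + vk D (k : ℤ)) (Sum.inr 3) = z (Sum.inr 3) := by simp [vk]
    unfold cfg
    simp only [h0, hr0, hr1, hr2, hr3]
    congr 1
    · rw [decide_eq_decide]
      refine and_congr Iff.rfl (and_congr Iff.rfl ?_)
      constructor <;> intro h <;> linarith
    · rw [decide_eq_decide]
      refine and_congr Iff.rfl (and_congr Iff.rfl ?_)
      constructor <;> intro h <;> linarith
  · intro u hu
    -- the system coordinates
    have hmu : ∀ (z : Pos D) (i : Fin D), (0 ≤ z (Sum.inl i) + u (Sum.inl i)) ↔ (0 ≤ z (Sum.inl i)) := by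
      intro z i
      have h1 := congrArg (fun x : Cell D A => x.mu i) (hu z)
      simpa [cfg] using h1
    have hinl : ∀ i, u (Sum.inl i) = 0 := by
      intro i
      have h1 := (hmu 0 i).2 (by simp)
      have h2 := hmu (fun _ => -u (Sum.inl i)) i
      have h3 := h2.1 (by simp)
      simp at h1 h3
      omega
    -- the coordinate q
    have hq : u (Sum.inr 3) = 0 := by
      have h1 := congrArg (fun x : Cell D A => x.K) (hu 0)
      simpa [cfg, hinl] using h1
    -- the coordinates s, t
    have hs : u (Sum.inr 1) = k * u (Sum.inr 2) := by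
      have h1 := congrArg (fun x : Cell D A => x.S) (hu 0)
      simpa [cfg, hinl] using h1
    -- the odometer
    have hp : u (Sum.inr 0) = 0 := by
      apply hb
      intro n p
      obtain ⟨z, hz⟩ : ∃ z : Pos D, z = fun j => if j = Sum.inl i0 then (k : ℤ) else if j = Sum.inl i1 then (n : ℤ)
        else if j = Sum.inr 0 then p else 0 := ⟨_, rfl⟩
      have z0 : z (Sum.inl i0) = k := by simp [hz]
      have z1 : z (Sum.inl i1) = n := by
        simp only [hz, Sum.inl.injEq, hne.symm, if_false, if_true]
      have zp : z (Sum.inr 0) = p := by simp [hz]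
      have zpos : ∀ i, 0 ≤ z (Sum.inl i) := by
        intro i
        by_cases h1 : (Sum.inl i : Fin D ⊕ Fin 4) = Sum.inl i0
        · rw [h1, z0]; exact Int.natCast_nonneg k
        · by_cases h2 : (Sum.inl i : Fin D ⊕ Fin 4) = Sum.inl i1
          · rw [h2, z1]; exact Int.natCast_nonneg n
          · have h3 : (Sum.inl i : Fin D ⊕ Fin 4) ≠ Sum.inr 0 := by simp
            have h4 : z (Sum.inl i) = 0 := by
              rw [hz]
              show (if (Sum.inl i : Fin D ⊕ Fin 4) = Sum.inl i0 then (k : ℤ) else
                if (Sum.inl i : Fin D ⊕ Fin 4) = Sum.inl i1 then (n : ℤ)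
                else if (Sum.inl i : Fin D ⊕ Fin 4) = Sum.inr 0 then p else 0) = 0
              rw [if_neg h1, if_neg h2, if_neg h3]
            rw [h4]
      have h1 := congrArg (fun x : Cell D A => x.b) (hu z)
      have hc1 : (∀ i, 0 ≤ (z + u) (Sum.inl i)) ∧ (z + u) (Sum.inl i0) = k := by
        refine ⟨fun i => ?_, ?_⟩
        · simp only [Pi.add_apply, hinl, add_zero]; exact zpos i
        · simp only [Pi.add_apply, hinl, add_zero]; exact z0
      have hc2 : (∀ i, 0 ≤ z (Sum.inl i)) ∧ z (Sum.inl i0) = k := ⟨zpos, z0⟩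
      simp only [cfg, if_pos hc1, if_pos hc2] at h1
      simp only [Pi.add_apply, hinl, add_zero, z1, zp, Int.toNat_natCast] at h1
      exact h1
    refine ⟨u (Sum.inr 2), ?_⟩
    funext j
    rcases j with i | j
    · rw [hinl]; simp [vk]
    · fin_cases j
      · show u (Sum.inr 0) = _
        rw [hp]; simp [vk]
      · show u (Sum.inr 1) = _
        rw [hs]; simp [vk]; ring
      · show u (Sum.inr 2) = _
        simp [vk]
      · show u (Sum.inr 3) = _
        rw [hq]; simp [vk]

end Pool.Agent.H887R3.SL
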