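import Pool.Agent.H887R3.SL.DefsB

set_option autoImplicit false

namespace Pool.Agent.H887R3.SL

namespace CVALaux

theorem ev_ll {D : ℕ} (i i' : Fin D) :
    (ev (Sum.inl i) : Pos D) (Sum.inl i') = if i' = i then 1 else 0 := by
  simp [ev, Pi.single_apply]

theorem ev_lr {D : ℕ} (i : Fin D) (j : Fin 4) : (ev (Sum.inl i) : Pos D) (Sum.inr j) = 0 := by
  simp [ev]

theorem ev_rl {D : ℕ} (i : Fin D) (j : Fin 4) : (ev (Sum.inr j) : Pos D) (Sum.inl i) = 0 := by
  simp [ev]

theorem ev_rr {D : ℕ} (j j' : Fin 4) :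
    (ev (Sum.inr j) : Pos D) (Sum.inr j') = if j' = j then 1 else 0 := by
  simp [ev, Pi.single_apply]

theorem ev_ne {D : ℕ} {j j' : Fin D ⊕ Fin 4} (h : j ≠ j') : (ev j : Pos D) j' = 0 := by
  simp [ev, h.symm]

theorem ofs_l {D : ℕ} (δ : Fin D → Bool) (i : Fin D) :
    ofs δ (Sum.inl i) = if δ i = true then 1 else 0 := rfl

section

variable {D : ℕ} {A : Type} (c : (Fin D → ℕ) → A) (b cc : ℕ → ℤ → Bool) (i0 i1 : Fin D) (k : ℕ)
  (w : Pos D)

theorem mu_iff (i : Fin D) : (cfg c b cc i0 i1 k w).mu i = true ↔ 0 ≤ w (Sum.inl i) := by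
  simp [cfg]

theorem mu_iff' (i : Fin D) : (cfg c b cc i0 i1 k w).mu i = false ↔ w (Sum.inl i) < 0 := by
  simp [cfg]

theorem M_iff : (cfg c b cc i0 i1 k w).M = true ↔ w (Sum.inl i0) ≤ k := by
  simp [cfg]

theorem M_iff' : (cfg c b cc i0 i1 k w).M = false ↔ (k : ℤ) < w (Sum.inl i0) := by
  simp [cfg]

theorem K_iff : (cfg c b cc i0 i1 k w).K = true ↔ (∀ i, w (Sum.inl i) = 0) ∧ w (Sum.inr 3) = 0 := by
  simp [cfg]

theorem S_iff : (cfg c b cc i0 i1 k w).S = true ↔ (0 ≤ w (Sum.inl i0) ∧ w (Sum.inl i0) ≤ k ∧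
    w (Sum.inr 1) - w (Sum.inl i0) = k * w (Sum.inr 2)) := by
  simp [cfg]

theorem T_iff : (cfg c b cc i0 i1 k w).T = true ↔ (0 ≤ w (Sum.inl i0) ∧ w (Sum.inl i0) ≤ k ∧
    w (Sum.inr 1) = k * (w (Sum.inr 2) + 1)) := by
  simp [cfg]

theorem act_iff : Act i0 (cfg c b cc i0 i1 k) w ↔ (∀ i, 0 ≤ w (Sum.inl i)) ∧ w (Sum.inl i0) = k := by
  unfold Act
  simp only [mu_iff, M_iff, M_iff', Pi.add_apply, ev_ll, if_true]
  constructor
  · rintro ⟨h1, h2, h3⟩
    exact ⟨h1, by omega⟩
  · rintro ⟨h1, h2⟩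
    exact ⟨h1, by omega, by omega⟩

theorem b_act (h : (∀ i, 0 ≤ w (Sum.inl i)) ∧ w (Sum.inl i0) = k) :
    (cfg c b cc i0 i1 k w).b = b (w (Sum.inl i1)).toNat (w (Sum.inr 0)) := by
  simp only [cfg]
  rw [if_pos h]

theorem cc_act (h : (∀ i, 0 ≤ w (Sum.inl i)) ∧ w (Sum.inl i0) = k) :
    (cfg c b cc i0 i1 k w).cc = cc (w (Sum.inl i1)).toNat (w (Sum.inr 0)) := by
  simp only [cfg]
  rw [if_pos h]

end

theorem bool_eq {a b : Bool} (h : a = true ↔ b = true) : a = b := Bool.eq_iff_iff.2 h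

end CVALaux

open CVALaux

theorem t_CVAL : S_CVAL := by
  intro D A ok π i0 i1 c b cc k r hne hv hπ hO w
  have hadd1 : ∀ i : Fin D, (w + ev (Sum.inl i) : Pos D) (Sum.inl i) = w (Sum.inl i) + 1 := by
    intro i; rw [Pi.add_apply, ev_ll, if_pos rfl]
  have hsub1 : ∀ i : Fin D, (w - ev (Sum.inl i) : Pos D) (Sum.inl i) = w (Sum.inl i) - 1 := by
    intro i; rw [Pi.sub_apply, ev_ll, if_pos rfl]
  refine
    { mu_const := ?_, mu_mono := ?_, c_const := ?_, c_ok := ?_, M_const := ?_, M_anti := ?_,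
      K_const := ?_, K_orig := ?_, ST_const := ?_, S_diag := ?_, S_end := ?_, S_start := ?_,
      S_zero := ?_, O_const := ?_, O_zero := ?_, O_start := ?_, O_event := ?_, O_pass := ?_ }
  · intro i j hj
    apply bool_eq
    rw [mu_iff, mu_iff, Pi.add_apply, ev_ne hj, add_zero]
  · intro i h
    rw [mu_iff] at h ⊢
    rw [hadd1]; omega
  · intro j
    simp only [cfg, Pi.add_apply, ev_rl, add_zero]
  · intro h
    have h' : ∀ i, 0 ≤ w (Sum.inl i) := fun i => (mu_iff c b cc i0 i1 k w i).1 (h i)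
    have h1 := hv (fun i => (w (Sum.inl i)).toNat)
    have h2 : (fun i => !(cfg c b cc i0 i1 k (w - ev (Sum.inl i))).mu i) =
        zp (fun i => (w (Sum.inl i)).toNat) := by
      funext i
      have := h' i
      unfold zp
      apply bool_eq
      rw [Bool.not_eq_true', mu_iff', hsub1, decide_eq_true_iff]
      beta_reduce
      omega
    have h3 : (fun δ => (cfg c b cc i0 i1 k (w + ofs δ)).c) =
        fun δ => c (off (fun i => (w (Sum.inl i)).toNat) δ) := by
      funext δ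
      simp only [cfg]
      congr 1
      funext i
      have := h' i
      unfold off
      rw [Pi.add_apply, ofs_l]
      beta_reduce
      split_ifs <;> omega
    rw [h2, h3]
    exact h1
  · intro j hj
    apply bool_eq
    rw [M_iff, M_iff, Pi.add_apply, ev_ne hj, add_zero]
  · intro h
    rw [M_iff] at h ⊢
    rw [hadd1] at h; omega
  · intro j hj
    apply bool_eq
    rw [K_iff, K_iff]
    simp only [Pi.add_apply, ev_rl, ev_rr, add_zero, if_neg hj.symm]
  · intro h i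
    rw [K_iff] at h
    rw [mu_iff, mu_iff', hsub1]
    have := h.1 i
    omega
  · intro j h0 h1 h2
    refine ⟨bool_eq ?_, bool_eq ?_⟩
    · rw [S_iff, S_iff]
      simp only [Pi.add_apply, ev_ne h0, ev_ne h1, ev_ne h2, add_zero]
    · rw [T_iff, T_iff]
      simp only [Pi.add_apply, ev_ne h0, ev_ne h1, ev_ne h2, add_zero]
  · intro h1 h2
    rw [mu_iff] at h1
    rw [M_iff, hadd1] at h2
    refine ⟨bool_eq ?_, bool_eq ?_⟩
    · rw [S_iff, S_iff]
      simp only [Pi.add_apply, ev_ll, ev_lr, ev_rl, ev_rr, add_zero, if_true]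
      have h3 : ¬ ((2 : Fin 4) = 1) := by decide
      rw [if_neg h3, add_zero]
      constructor
      · rintro ⟨_, _, h⟩; exact ⟨by omega, by omega, by linarith⟩
      · rintro ⟨_, _, h⟩; exact ⟨by omega, by omega, by linarith⟩
    · rw [T_iff, T_iff]
      simp only [Pi.add_apply, ev_ll, ev_lr, add_zero, if_true]
      constructor
      · rintro ⟨_, _, h⟩; exact ⟨by omega, by omega, h⟩
      · rintro ⟨_, _, h⟩; exact ⟨by omega, by omega, h⟩
  · intro h1 h2 h3
    rw [mu_iff] at h1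
    rw [M_iff] at h2
    rw [M_iff', hadd1] at h3
    have h4 : w (Sum.inl i0) = k := by omega
    apply bool_eq
    rw [T_iff, S_iff, h4]
    constructor
    · rintro ⟨_, _, h⟩; exact ⟨by omega, by omega, by linarith⟩
    · rintro ⟨_, _, h⟩; exact ⟨by omega, by omega, by linarith⟩
  · intro h1 h2 h3
    rw [mu_iff] at h1
    rw [mu_iff', hsub1] at h2
    rw [M_iff] at h3
    have h4 : w (Sum.inl i0) = 0 := by omega
    apply bool_eq
    rw [T_iff, S_iff]
    simp only [Pi.add_apply, ev_rl, ev_rr, add_zero, if_true]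
    have h5 : ¬ ((1 : Fin 4) = 2) := by decide
    rw [if_neg h5, h4, sub_zero, add_zero]
  · intro h
    have h1 : ¬ (0 ≤ w (Sum.inl i0) ∧ w (Sum.inl i0) ≤ k) := by
      rintro ⟨h1, h2⟩
      rw [← mu_iff c b cc i0 i1 k w] at h1
      rw [← M_iff c b cc i0 i1 k w] at h2
      rw [h1, h2] at h
      exact absurd h (by decide)
    constructor
    · rw [← Bool.not_eq_true, S_iff]
      exact fun h2 => h1 ⟨h2.1, h2.2.1⟩
    · rw [← Bool.not_eq_true, T_iff]
      exact fun h2 => h1 ⟨h2.1, h2.2.1⟩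
  · intro j hj
    constructor
    · simp only [cfg, Pi.add_apply, ev_rl, ev_rr, add_zero, if_neg hj.symm]
    · simp only [cfg, Pi.add_apply, ev_rl, ev_rr, add_zero, if_neg hj.symm]
  · intro h
    rw [act_iff] at h
    constructor
    · simp only [cfg]
      rw [if_neg h]
    · simp only [cfg]
      rw [if_neg h]
  · intro h h1
    rw [act_iff] at h
    rw [mu_iff', hsub1] at h1
    rw [cc_act _ _ _ _ _ _ _ h]
    have h2 := h.1 i1
    have h3 : w (Sum.inl i1) = 0 := by omega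
    rw [h3]
    exact hO.1 _
  · intro h h1
    rw [act_iff] at h
    have hr : r (w (Sum.inl i1)).toNat = true := by
      have := hπ (fun i => (w (Sum.inl i)).toNat) (by simp only [h.2, Int.toNat_natCast])
      rw [← this]
      exact h1
    have hA : (∀ i, 0 ≤ (w + ev (Sum.inr 0) : Pos D) (Sum.inl i)) ∧
        (w + ev (Sum.inr 0) : Pos D) (Sum.inl i0) = k := by
      simp only [Pi.add_apply, ev_rl, add_zero]
      exact h
    have hB : (∀ i, 0 ≤ (w + ev (Sum.inl i1) : Pos D) (Sum.inl i)) ∧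
        (w + ev (Sum.inl i1) : Pos D) (Sum.inl i0) = k := by
      simp only [Pi.add_apply, ev_ll, if_neg hne, add_zero]
      refine ⟨fun i => ?_, h.2⟩
      have := h.1 i
      split_ifs <;> omega
    rw [b_act _ _ _ _ _ _ _ h, cc_act _ _ _ _ _ _ _ h, b_act _ _ _ _ _ _ _ hA,
      cc_act _ _ _ _ _ _ _ hB, hadd1]
    have h2 := hO.2.1 (w (Sum.inl i1)).toNat (w (Sum.inr 0)) hr
    have h3 : (w (Sum.inl i1) + 1).toNat = (w (Sum.inl i1)).toNat + 1 := by
      have := h.1 i1
      omega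
    simp only [Pi.add_apply, ev_rl, ev_rr, ev_lr, add_zero, if_true, h3]
    exact h2
  · intro h h1
    rw [act_iff] at h
    have hr : r (w (Sum.inl i1)).toNat = false := by
      have := hπ (fun i => (w (Sum.inl i)).toNat) (by simp only [h.2, Int.toNat_natCast])
      rw [← this]
      exact h1
    have hB : (∀ i, 0 ≤ (w + ev (Sum.inl i1) : Pos D) (Sum.inl i)) ∧
        (w + ev (Sum.inl i1) : Pos D) (Sum.inl i0) = k := by
      simp only [Pi.add_apply, ev_ll, if_neg hne, add_zero]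
      refine ⟨fun i => ?_, h.2⟩
      have := h.1 i
      split_ifs <;> omega
    rw [b_act _ _ _ _ _ _ _ h, cc_act _ _ _ _ _ _ _ h, cc_act _ _ _ _ _ _ _ hB, hadd1]
    have h2 := hO.2.2 (w (Sum.inl i1)).toNat (w (Sum.inr 0)) hr
    have h3 : (w (Sum.inl i1) + 1).toNat = (w (Sum.inl i1)).toNat + 1 := by
      have := h.1 i1
      omega
    simp only [Pi.add_apply, ev_lr, add_zero, h3]
    exact h2

end Pool.Agent.H887R3.SL
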