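import Pool.Agent.H887R3.SL.Defs

/-! DIAG: equality is definable (helper708). -/

set_option autoImplicit false

namespace Pool.Agent.H887R3.SL

theorem diag_off_false {D : ℕ} (w : Fin D → ℕ) : off w (fun _ => false) = w := by
  funext i
  simp [off]

theorem diag_off_true {D : ℕ} (w : Fin D → ℕ) : off w (fun _ => true) = fun i => w i + 1 := by
  funext i
  simp [off]

/-- the rule for the diagonal -/
def diagRule : Rule (2 + 0) Bool := fun z win =>
  (z 0 = true → z 1 = true → win (fun _ => false) = true) ∧
  (z 0 ≠ z 1 → win (fun _ => false) = false) ∧
  win (fun _ => false) = win (fun _ => true)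

theorem diag_unique (c : (Fin (2 + 0) → ℕ) → Bool) (hc : Valid diagRule c) :
    ∀ (n : ℕ) (w : Fin (2 + 0) → ℕ), w 0 = n → c w = decide (w 0 = w 1) := by
  intro n
  induction n with
  | zero =>
    intro w hw
    obtain ⟨h1, h2, -⟩ := hc w
    beta_reduce at h1 h2
    rw [diag_off_false] at h1 h2
    by_cases h : w 1 = 0
    · rw [h1 (by simp [zp, hw]) (by simp [zp, h]), hw, h]
      simp
    · rw [h2 (by simp [zp, hw, h]), hw]
      symm
      rw [decide_eq_false_iff_not]
      exact fun h' => h h'.symm
  | succ n ih =>
    intro w hw
    by_cases h : w 1 = 0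
    · obtain ⟨-, h2, -⟩ := hc w
      beta_reduce at h2
      rw [diag_off_false] at h2
      rw [h2 (by simp [zp, hw, h])]
      symm
      rw [decide_eq_false_iff_not, hw, h]
      omega
    · have h0 : ∀ i : Fin (2 + 0), w i ≠ 0 := by
        intro i
        have hi : i = 0 ∨ i = 1 := by
          rcases i with ⟨i, hi⟩
          have : i = 0 ∨ i = 1 := by omega
          rcases this with h' | h'
          · left; exact Fin.ext h'
          · right; exact Fin.ext h'
        rcases hi with rfl | rfl
        · omega
        · exact h
      obtain ⟨-, -, h3⟩ := hc (fun i => w i - 1)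
      simp only [diag_off_false, diag_off_true] at h3
      have e : (fun i => w i - 1 + 1) = w := by
        funext i
        have := h0 i
        omega
      rw [e] at h3
      rw [← h3, ih (fun i => w i - 1) (by simp only [hw]; omega)]
      have h0' := h0 0
      have h1' := h0 1
      congr 1
      apply propext
      constructor
      · intro h4; omega
      · intro h4; omega

theorem t_DIAG : S_DIAG := by
  refine ⟨0, Bool, inferInstance, diagRule, id, ⟨fun w => decide (w 0 = w 1), fun w => ?_⟩,
    fun c hc w => ?_⟩
  · refine ⟨fun h1 h2 => ?_, fun h => ?_, ?_⟩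
    · beta_reduce
      rw [diag_off_false]
      simp only [zp, decide_eq_true_eq] at h1 h2
      rw [h1, h2]
      simp
    · beta_reduce
      rw [diag_off_false, decide_eq_false_iff_not]
      intro he
      apply h
      simp only [zp]
      rw [he]
    · beta_reduce
      rw [diag_off_false, diag_off_true]
      congr 1
      apply propext
      beta_reduce
      constructor
      · intro h4; omega
      · intro h4; omega
  · exact diag_unique c hc (w 0) w rfl

end Pool.Agent.H887R3.SL
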