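import Pool.Agent.H887R3.SL.Defs

/-!
# Slopes of periodicity (MP_af28f6_lc): the shift of finite type and the statements of the tasks
-/

set_option autoImplicit false

namespace Pool.Agent.H887R3.SL

/-- positions: `D` coordinates of the system and four more: `0 = p`, `1 = s`, `2 = t`, `3 = q` -/
abbrev Pos (D : ℕ) := Fin D ⊕ Fin 4 → ℤ

/-- unit vectors -/
def ev {D : ℕ} (j : Fin D ⊕ Fin 4) : Pos D := Pi.single j 1

/-- 0/1 vectors in the coordinates of the system -/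
def ofs {D : ℕ} (δ : Fin D → Bool) : Pos D :=
  Sum.elim (fun i => if δ i = true then 1 else 0) (fun _ => 0)

/-- the alphabet of the shift -/
@[ext] structure Cell (D : ℕ) (A : Type) where
  mu : Fin D → Bool
  c : A
  M : Bool
  K : Bool
  S : Bool
  T : Bool
  b : Bool
  cc : Bool

/-- active cells carry the odometer -/
def Act {D : ℕ} {A : Type} (i0 : Fin D) (x : Pos D → Cell D A) (w : Pos D) : Prop :=
  (∀ i, (x w).mu i = true) ∧ (x w).M = true ∧ (x (w + ev (Sum.inl i0))).M = false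

/-- the local conditions of the shift at the cell `w` -/
structure Loc {D : ℕ} {A : Type} (ok : Rule D A) (π : A → Bool) (i0 i1 : Fin D)
    (x : Pos D → Cell D A) (w : Pos D) : Prop where
  mu_const : ∀ (i : Fin D) (j : Fin D ⊕ Fin 4), j ≠ Sum.inl i → (x (w + ev j)).mu i = (x w).mu i
  mu_mono : ∀ i : Fin D, (x w).mu i = true → (x (w + ev (Sum.inl i))).mu i = true
  c_const : ∀ j : Fin 4, (x (w + ev (Sum.inr j))).c = (x w).c
  c_ok : (∀ i, (x w).mu i = true) →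
    ok (fun i => !(x (w - ev (Sum.inl i))).mu i) (fun δ => (x (w + ofs δ)).c)
  M_const : ∀ j : Fin D ⊕ Fin 4, j ≠ Sum.inl i0 → (x (w + ev j)).M = (x w).M
  M_anti : (x (w + ev (Sum.inl i0))).M = true → (x w).M = true
  K_const : ∀ j : Fin 4, j ≠ 3 → (x (w + ev (Sum.inr j))).K = (x w).K
  K_orig : (x w).K = true → ∀ i, (x w).mu i = true ∧ (x (w - ev (Sum.inl i))).mu i = false
  ST_const : ∀ j : Fin D ⊕ Fin 4, j ≠ Sum.inl i0 → j ≠ Sum.inr 1 → j ≠ Sum.inr 2 →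
    (x (w + ev j)).S = (x w).S ∧ (x (w + ev j)).T = (x w).T
  S_diag : (x w).mu i0 = true → (x (w + ev (Sum.inl i0))).M = true →
    (x (w + ev (Sum.inl i0) + ev (Sum.inr 1))).S = (x w).S ∧
      (x (w + ev (Sum.inl i0))).T = (x w).T
  S_end : (x w).mu i0 = true → (x w).M = true → (x (w + ev (Sum.inl i0))).M = false →
    (x w).T = (x w).S
  S_start : (x w).mu i0 = true → (x (w - ev (Sum.inl i0))).mu i0 = false → (x w).M = true →
    (x (w + ev (Sum.inr 2))).S = (x w).T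
  S_zero : ((x w).mu i0 && (x w).M) = false → (x w).S = false ∧ (x w).T = false
  O_const : ∀ j : Fin 4, j ≠ 0 → (x (w + ev (Sum.inr j))).b = (x w).b ∧
    (x (w + ev (Sum.inr j))).cc = (x w).cc
  O_zero : ¬ Act i0 x w → (x w).b = false ∧ (x w).cc = false
  O_start : Act i0 x w → (x (w - ev (Sum.inl i1))).mu i1 = false → (x w).cc = true
  O_event : Act i0 x w → π (x w).c = true →
    (x (w + ev (Sum.inr 0))).b = xor (x w).b (x w).cc ∧
      (x (w + ev (Sum.inl i1))).cc = ((x w).cc && (x w).b)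
  O_pass : Act i0 x w → π (x w).c = false →
    (x w).b = false ∧ (x (w + ev (Sum.inl i1))).cc = (x w).cc

/-- `v` is a slope of the shift -/
def SlopeL {D : ℕ} {A : Type} (ok : Rule D A) (π : A → Bool) (i0 i1 : Fin D) (v : Pos D) : Prop :=
  v ≠ 0 ∧ ∃ x : Pos D → Cell D A, (∀ w, Loc ok π i0 i1 x w) ∧
    (∃ w : Pos D, w ≠ 0 ∧ ∀ z, x (z + w) = x z) ∧
    ∀ u : Pos D, (∀ z, x (z + u) = x z) → ∃ a b : ℤ, b ≠ 0 ∧ b • u = a • v

/-- the direction which codes `k` -/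
def vk (D : ℕ) (k : ℤ) : Pos D := fun j => if j = Sum.inr 1 then k else if j = Sum.inr 2 then 1 else 0

/-- a function which does not change along some coordinates -/
def S_CONST : Prop := ∀ (ι B : Type) [Fintype ι] [DecidableEq ι] (g : (ι → ℤ) → B) (J : ι → Prop),
  (∀ w j, ¬ J j → g (w + Pi.single j 1) = g w) → ∀ w w' : ι → ℤ, (∀ j, J j → w j = w' j) → g w = g w'

/-- the origin exists when the configuration is not `q`-periodic -/
def S_ORIG : Prop := ∀ (D : ℕ) (A : Type) (ok : Rule D A) (π : A → Bool) (i0 i1 : Fin D)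
  (x : Pos D → Cell D A), (∀ w, Loc ok π i0 i1 x w) → (¬ ∀ z, x (z + ev (Sum.inr 3)) = x z) →
  ∃ o : Fin D → ℤ, ∀ w i, (x w).mu i = true ↔ o i ≤ w (Sum.inl i)

/-- the system is valid in the positive orthant -/
def S_SYS : Prop := ∀ (D : ℕ) (A : Type) (ok : Rule D A) (π : A → Bool) (i0 i1 : Fin D)
  (R : ℕ → ℕ → Bool) (x : Pos D → Cell D A) (o : Fin D → ℤ),
  (∀ c, Valid ok c → ∀ w, π (c w) = R (w i0) (w i1)) →
  (∀ w, Loc ok π i0 i1 x w) → (∀ w i, (x w).mu i = true ↔ o i ≤ w (Sum.inl i)) →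
  ∀ (w : Pos D) (m n : ℕ), (∀ i, o i ≤ w (Sum.inl i)) → w (Sum.inl i0) = o i0 + m →
    w (Sum.inl i1) = o i1 + n → π (x w).c = R m n

/-- the mark exists when the configuration is not `p`-periodic -/
def S_MARK : Prop := ∀ (D : ℕ) (A : Type) (ok : Rule D A) (π : A → Bool) (i0 i1 : Fin D)
  (x : Pos D → Cell D A) (o : Fin D → ℤ), (∀ w, Loc ok π i0 i1 x w) →
  (∀ w i, (x w).mu i = true ↔ o i ≤ w (Sum.inl i)) → (¬ ∀ z, x (z + ev (Sum.inr 0)) = x z) →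
  ∃ m : ℕ, ∀ w : Pos D, (x w).M = true ↔ w (Sum.inl i0) ≤ o i0 + m

/-- the slope is given by the mark -/
def S_SLO : Prop := ∀ (D : ℕ) (A : Type) (ok : Rule D A) (π : A → Bool) (i0 i1 : Fin D)
  (x : Pos D → Cell D A) (o : Fin D → ℤ) (m : ℕ), (∀ w, Loc ok π i0 i1 x w) →
  (∀ w i, (x w).mu i = true ↔ o i ≤ w (Sum.inl i)) →
  (∀ w : Pos D, (x w).M = true ↔ w (Sum.inl i0) ≤ o i0 + m) →
  ∀ z, x (z + vk D m) = x z

/-- the rules of the odometer -/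
def Odo (r : ℕ → Bool) (b cc : ℕ → ℤ → Bool) : Prop :=
  (∀ p, cc 0 p = true) ∧
  (∀ n p, r n = true → b n (p + 1) = xor (b n p) (cc n p) ∧ cc (n + 1) p = (cc n p && b n p)) ∧
  (∀ n p, r n = false → b n p = false ∧ cc (n + 1) p = cc n p)

/-- with finitely many events the odometer is periodic -/
def S_ODOP : Prop := ∀ (r : ℕ → Bool) (b cc : ℕ → ℤ → Bool) (N : ℕ), Odo r b cc →
  (∀ n, N ≤ n → r n = false) →
  ∀ n p, b n (p + 2 ^ N) = b n p ∧ cc n (p + 2 ^ N) = cc n p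

/-- there is an odometer, and with infinitely many events it has no period -/
def S_ODOE : Prop := ∀ r : ℕ → Bool, ∃ b cc : ℕ → ℤ → Bool, Odo r b cc ∧
  ({n | r n = true}.Infinite → ∀ P : ℤ, (∀ n p, b n (p + P) = b n p) → P = 0)

/-- with finitely many events the configuration is `p`-periodic -/
def S_PPER : Prop := ∀ (D : ℕ) (A : Type) (ok : Rule D A) (π : A → Bool) (i0 i1 : Fin D)
  (r : ℕ → Bool) (x : Pos D → Cell D A) (o : Fin D → ℤ) (m N : ℕ), i0 ≠ i1 →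
  (∀ w, Loc ok π i0 i1 x w) →
  (∀ w i, (x w).mu i = true ↔ o i ≤ w (Sum.inl i)) →
  (∀ w : Pos D, (x w).M = true ↔ w (Sum.inl i0) ≤ o i0 + m) →
  (∀ (w : Pos D) (n : ℕ), (∀ i, o i ≤ w (Sum.inl i)) → w (Sum.inl i0) = o i0 + m →
    w (Sum.inl i1) = o i1 + n → π (x w).c = r n) →
  (∀ n, N ≤ n → r n = false) →
  ∀ z, x (z + (2 ^ N : ℤ) • ev (Sum.inr 0)) = x z

/-- soundness -/
def S_SOUND : Prop := ∀ (D : ℕ) (A : Type) (ok : Rule D A) (π : A → Bool) (i0 i1 : Fin D)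
  (R : ℕ → ℕ → Bool), i0 ≠ i1 → (∀ c, Valid ok c → ∀ w, π (c w) = R (w i0) (w i1)) →
  ∀ k : ℕ, SlopeL ok π i0 i1 (vk D k) → {n | R k n = true}.Infinite

open scoped Classical in
/-- the configuration which shows that `vk k` is a slope -/
noncomputable def cfg {D : ℕ} {A : Type} (c : (Fin D → ℕ) → A) (b cc : ℕ → ℤ → Bool) (i0 i1 : Fin D)
    (k : ℕ) (w : Pos D) : Cell D A where
  mu := fun i => decide (0 ≤ w (Sum.inl i))
  c := c (fun i => (w (Sum.inl i)).toNat)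
  M := decide (w (Sum.inl i0) ≤ k)
  K := decide ((∀ i, w (Sum.inl i) = 0) ∧ w (Sum.inr 3) = 0)
  S := decide (0 ≤ w (Sum.inl i0) ∧ w (Sum.inl i0) ≤ k ∧
    w (Sum.inr 1) - w (Sum.inl i0) = k * w (Sum.inr 2))
  T := decide (0 ≤ w (Sum.inl i0) ∧ w (Sum.inl i0) ≤ k ∧ w (Sum.inr 1) = k * (w (Sum.inr 2) + 1))
  b := if (∀ i, 0 ≤ w (Sum.inl i)) ∧ w (Sum.inl i0) = k
    then b (w (Sum.inl i1)).toNat (w (Sum.inr 0)) else false
  cc := if (∀ i, 0 ≤ w (Sum.inl i)) ∧ w (Sum.inl i0) = k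
    then cc (w (Sum.inl i1)).toNat (w (Sum.inr 0)) else false

/-- the configuration obeys the rules -/
def S_CVAL : Prop := ∀ (D : ℕ) (A : Type) (ok : Rule D A) (π : A → Bool) (i0 i1 : Fin D)
  (c : (Fin D → ℕ) → A) (b cc : ℕ → ℤ → Bool) (k : ℕ) (r : ℕ → Bool), i0 ≠ i1 → Valid ok c →
  (∀ w : Fin D → ℕ, w i0 = k → π (c w) = r (w i1)) → Odo r b cc →
  ∀ w, Loc ok π i0 i1 (cfg c b cc i0 i1 k) w

/-- the periods of the configuration -/
def S_CPER : Prop := ∀ (D : ℕ) (A : Type) (i0 i1 : Fin D)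
  (c : (Fin D → ℕ) → A) (b cc : ℕ → ℤ → Bool) (k : ℕ), i0 ≠ i1 →
  (∀ P : ℤ, (∀ n p, b n (p + P) = b n p) → P = 0) →
  (∀ z, cfg c b cc i0 i1 k (z + vk D k) = cfg c b cc i0 i1 k z) ∧
  ∀ u : Pos D, (∀ z, cfg c b cc i0 i1 k (z + u) = cfg c b cc i0 i1 k z) →
    ∃ a : ℤ, u = a • vk D k

/-- completeness -/
def S_COMPL : Prop := ∀ (D : ℕ) (A : Type) (ok : Rule D A) (π : A → Bool) (i0 i1 : Fin D)
  (R : ℕ → ℕ → Bool), i0 ≠ i1 → (∃ c, Valid ok c) →
  (∀ c, Valid ok c → ∀ w, π (c w) = R (w i0) (w i1)) →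
  ∀ k : ℕ, {n | R k n = true}.Infinite → SlopeL ok π i0 i1 (vk D k)

/-- the condition of the frozen statement -/
def Slope (d k n : ℕ) (F : Set ((Fin d → Fin n) → Fin k)) (v : Fin d → ℤ) : Prop :=
  v ≠ 0 ∧ ∃ x : (Fin d → ℤ) → Fin k,
    (∀ z : Fin d → ℤ,
      (fun i : Fin d → Fin n => x (z + (fun j => ((i j : ℕ) : ℤ)))) ∉ F) ∧
    (∃ w : Fin d → ℤ, w ≠ 0 ∧ ∀ z, x (z + w) = x z) ∧
    ∀ u : Fin d → ℤ, (∀ z, x (z + u) = x z) →
      ∃ a b : ℤ, b ≠ 0 ∧ b • u = a • v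

/-- the local conditions look only at the cells at distance at most one -/
def S_LOCAL : Prop := ∀ (D : ℕ) (A : Type) (ok : Rule D A) (π : A → Bool) (i0 i1 : Fin D)
  (x x' : Pos D → Cell D A) (w w' : Pos D),
  (∀ δ : Pos D, (∀ j, -1 ≤ δ j ∧ δ j ≤ 1) → x (w + δ) = x' (w' + δ)) →
  Loc ok π i0 i1 x w → Loc ok π i0 i1 x' w'

/-- a local condition with windows of side 3 gives a shift in the format of the frozen statement -/
def S_WIN : Prop := ∀ (D : ℕ) (C : Type) [Finite C] (L : (Pos D → C) → Pos D → Prop),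
  (∀ (x x' : Pos D → C) (w w' : Pos D),
    (∀ δ : Pos D, (∀ j, -1 ≤ δ j ∧ δ j ≤ 1) → x (w + δ) = x' (w' + δ)) → L x w → L x' w') →
  ∃ (k : ℕ) (F : Set ((Fin (D + 4) → Fin 3) → Fin k)), ∀ v : Fin (D + 4) → ℤ,
    Slope (D + 4) k 3 F v ↔
      ((fun j => v (finSumFinEquiv j)) ≠ (0 : Pos D) ∧ ∃ x : Pos D → C, (∀ w, L x w) ∧
        (∃ w : Pos D, w ≠ 0 ∧ ∀ z, x (z + w) = x z) ∧
        ∀ u : Pos D, (∀ z, x (z + u) = x z) →
          ∃ a b : ℤ, b ≠ 0 ∧ b • u = a • (fun j => v (finSumFinEquiv j) : Pos D))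

/-- the vector which codes `k`, as a function on `Fin (D + 4)` -/
def vf (D : ℕ) (k : ℕ) : Fin (D + 4) → ℤ :=
  fun j => if j = Fin.natAdd D 1 then (k : ℤ) else if j = Fin.natAdd D 2 then 1 else 0

def S_VCOMP : Prop := ∀ D : ℕ, Computable (vf D) ∧ ∀ k : ℕ,
  (fun j => vf D k (finSumFinEquiv j)) = vk D k

/-- the diagonal argument -/
def S_FIN : Prop := ∀ (d : ℕ) (T : (Fin d → ℤ) → Prop) (v : ℕ → Fin d → ℤ), Computable v →
  (∀ k : ℕ, T (v k) ↔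
    ∀ a : ℕ, (Nat.Partrec.Code.eval (Denumerable.ofNat Nat.Partrec.Code k) (Nat.pair k a)).Dom) →
  ¬ ∃ R : (Fin d → ℤ) × ℕ × ℕ → Prop, ComputablePred R ∧
    ∀ v : Fin d → ℤ, T v ↔ ∃ a : ℕ, ∀ b : ℕ, R (v, a, b)

end Pool.Agent.H887R3.SL
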