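import Pool.Agent.H887R3.SL.LIFT

/-!
# Elimination of variables with a witness
-/

set_option autoImplicit false

namespace Pool.Agent.H887R3.SL

theorem t_ELIM (h1 : S_COMMON) (h2 : S_LAYER) (h3 : S_LIFT) : S_ELIM := by
  intro n j P R Q hP hR hex hQ
  obtain ⟨E, hE⟩ := h1 (n + j) 2 ![P, R] (fun k => by
    fin_cases k
    · exact hP
    · exact hR)
  have hF : Forced (n + j + E) (fun w => Q (fun i => w (Fin.castAdd E (Fin.castAdd j i)))) := by
    refine h2 (n + j + E) (Fin 2 → Bool) Bool _ _
      (fun _ winR winQ => (∀ δ δ' : Fin (n + j + E) → Bool,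
          (∀ i : Fin n, δ (Fin.castAdd E (Fin.castAdd j i)) = δ' (Fin.castAdd E (Fin.castAdd j i)))
            → winQ δ = winQ δ') ∧
        (winR (fun _ => false) 0 = true → winQ (fun _ => false) = winR (fun _ => false) 1))
      inferInstance hE (fun w => ⟨fun δ δ' h => ?_, fun h => ?_⟩) (fun Q' hQ' w => ?_)
    · show Q _ = Q _
      congr 1
      funext i
      unfold off
      rw [h i]
    · simp only [LIFT_off_zero] at h ⊢
      have e : (fun i => w (Fin.castAdd E i)) =
          Fin.append (fun i : Fin n => w (Fin.castAdd E (Fin.castAdd j i)))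
            (fun i : Fin j => w (Fin.castAdd E (Fin.natAdd n i))) :=
        (Fin.append_castAdd_natAdd (f := fun i => w (Fin.castAdd E i))).symm
      have h' : P (fun i => w (Fin.castAdd E i)) = true := h
      show Q _ = R (fun i => w (Fin.castAdd E i))
      rw [e] at h' ⊢
      exact hQ _ _ h'
    · have hc : ∀ w w' : Fin (n + j + E) → ℕ, (∀ i : Fin n,
          w (Fin.castAdd E (Fin.castAdd j i)) = w' (Fin.castAdd E (Fin.castAdd j i))) →
          Q' w = Q' w' := by
        intro w w' hw
        refine LIFT_const (J := fun k => ∃ i : Fin n, Fin.castAdd E (Fin.castAdd j i) = k)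
          (fun w δ hδ => ?_) w w' ?_
        · have := (hQ' w).1 δ (fun _ => false) (fun i => hδ _ ⟨i, rfl⟩)
          simp only [LIFT_off_zero] at this
          exact this
        · rintro _ ⟨i, rfl⟩
          exact hw i
      obtain ⟨y, hy⟩ := hex (fun i => w (Fin.castAdd E (Fin.castAdd j i)))
      have h5 := (hQ' (Fin.append (Fin.append (fun i => w (Fin.castAdd E (Fin.castAdd j i))) y)
        (fun _ => 0))).2
      simp only [LIFT_off_zero] at h5
      have e2 : (fun i => Fin.append (Fin.append
          (fun i => w (Fin.castAdd E (Fin.castAdd j i))) y) (fun _ : Fin E => 0)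
            (Fin.castAdd E i)) = Fin.append (fun i => w (Fin.castAdd E (Fin.castAdd j i))) y := by
        funext i
        rw [Fin.append_left]
      have h6 := h5 (by
        show P (fun i => Fin.append (Fin.append
          (fun i => w (Fin.castAdd E (Fin.castAdd j i))) y) (fun _ : Fin E => 0)
            (Fin.castAdd E i)) = true
        rw [e2]
        exact hy)
      rw [hc w (Fin.append (Fin.append (fun i => w (Fin.castAdd E (Fin.castAdd j i))) y)
        (fun _ => 0)) (fun i => by rw [Fin.append_left, Fin.append_left]), h6]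
      show R (fun i => Fin.append (Fin.append
          (fun i => w (Fin.castAdd E (Fin.castAdd j i))) y) (fun _ : Fin E => 0)
            (Fin.castAdd E i)) = _
      rw [e2]
      exact (hQ _ _ hy).symm
  exact ⟨j + E, h3 (n + j + E) (n + (j + E)) Bool _ (Fin.cast (Nat.add_assoc n j E))
    (Fin.cast_injective _) hF⟩

end Pool.Agent.H887R3.SL
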