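import Pool.Agent.H887R3.SL.DefsB

/-! Task EVINF. -/

namespace Pool.Agent.H887R3.SL

namespace EvInf

open Nat.Partrec (Code)
open Nat.Partrec.Code

theorem hlt_iff (k a j : ℕ) : hlt k a j = true ↔
    ∀ a1 ≤ a, (evaln j (Denumerable.ofNat Code k) (Nat.pair k a1)).isSome = true := by
  induction a with
  | zero =>
    constructor
    · intro h a1 ha
      obtain rfl : a1 = 0 := by omega
      exact h
    · intro h
      exact h 0 le_rfl
  | succ a ih =>
    have e : hlt k (a + 1) j = (hlt k a j &&
      (evaln j (Denumerable.ofNat Code k) (Nat.pair k (a + 1))).isSome) := rfl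
    rw [e, Bool.and_eq_true, ih]
    constructor
    · rintro ⟨h1, h2⟩ a1 ha
      rcases Nat.lt_or_ge a a1 with h | h
      · obtain rfl : a1 = a + 1 := by omega
        exact h2
      · exact h1 a1 h
    · intro h
      exact ⟨fun a1 ha => h a1 (by omega), h (a + 1) le_rfl⟩

theorem evaln_some_mono {c : Code} {n j j' : ℕ} (h : j ≤ j') (hs : (evaln j c n).isSome = true) :
    (evaln j' c n).isSome = true := by
  rw [Option.isSome_iff_exists] at hs ⊢
  obtain ⟨x, hx⟩ := hs
  exact ⟨x, evaln_mono h hx⟩

theorem hlt_mono {k a j j' : ℕ} (h : j ≤ j') (hs : hlt k a j = true) : hlt k a j' = true := by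
  rw [hlt_iff] at hs ⊢
  intro a1 ha
  exact evaln_some_mono h (hs a1 ha)

theorem hlt_zero (k a : ℕ) : hlt k a 0 = false := by
  by_contra h
  rw [Bool.not_eq_false, hlt_iff] at h
  have := h 0 (Nat.zero_le _)
  simp [evaln] at this

theorem EV_iff (k n : ℕ) : EV k n = true ↔
    hlt k n.unpair.1 (n.unpair.2 + 1) = true ∧ hlt k n.unpair.1 n.unpair.2 = false := by
  simp [EV]

theorem exists_hlt {k : ℕ}
    (h : ∀ a : ℕ, (eval (Denumerable.ofNat Code k) (Nat.pair k a)).Dom) (a : ℕ) :
    ∃ j, hlt k a j = true := by
  have h1 : ∀ a, ∃ j, (evaln j (Denumerable.ofNat Code k) (Nat.pair k a)).isSome = true := by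
    intro a
    have h2 := h a
    rw [Part.dom_iff_mem] at h2
    obtain ⟨y, hy⟩ := h2
    obtain ⟨j, hj⟩ := evaln_complete.1 hy
    exact ⟨j, Option.isSome_iff_exists.2 ⟨y, hj⟩⟩
  choose f hf using h1
  refine ⟨(Finset.range (a + 1)).sup f, ?_⟩
  rw [hlt_iff]
  intro a1 ha
  exact evaln_some_mono (Finset.le_sup (f := f) (Finset.mem_range.2 (by omega))) (hf a1)

end EvInf

open EvInf in
theorem t_EVINF : S_EVINF := by
  intro k
  constructor
  · intro hinf a0
    by_contra hdiv
    apply hinf
    -- every event has first coordinate < a0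
    have hlt0 : ∀ a j, a0 ≤ a → hlt k a j = false := by
      intro a j ha
      by_contra h
      rw [Bool.not_eq_false, hlt_iff] at h
      have h1 := h a0 ha
      rw [Option.isSome_iff_exists] at h1
      obtain ⟨x, hx⟩ := h1
      apply hdiv
      rw [Part.dom_iff_mem]
      exact ⟨x, Nat.Partrec.Code.evaln_sound hx⟩
    have hinj : Set.InjOn (fun n : ℕ => n.unpair.1) {n | EV k n = true} := by
      intro n hn n' hn' hnn
      simp only [Set.mem_setOf_eq] at hn hn'
      rw [EV_iff] at hn hn'
      simp only at hnn
      have h2 : n.unpair.2 = n'.unpair.2 := by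
        rcases lt_trichotomy n.unpair.2 n'.unpair.2 with h | h | h
        · exfalso
          have h3 := hlt_mono (k := k) (a := n.unpair.1) (show n.unpair.2 + 1 ≤ n'.unpair.2 by omega)
            hn.1
          rw [hnn, hn'.2] at h3
          exact Bool.noConfusion h3
        · exact h
        · exfalso
          have h3 := hlt_mono (k := k) (a := n'.unpair.1) (show n'.unpair.2 + 1 ≤ n.unpair.2 by omega)
            hn'.1
          rw [← hnn, hn.2] at h3
          exact Bool.noConfusion h3
      rw [← Nat.pair_unpair n, ← Nat.pair_unpair n', hnn, h2]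
    apply Set.Finite.of_finite_image _ hinj
    apply Set.Finite.subset (Set.finite_Iio a0)
    rintro _ ⟨n, hn, rfl⟩
    simp only [Set.mem_setOf_eq] at hn
    rw [EV_iff] at hn
    simp only [Set.mem_Iio]
    by_contra hge
    rw [hlt0 _ _ (by omega)] at hn
    exact Bool.noConfusion hn.1
  · intro h
    have hex := exists_hlt h
    have hstep : ∀ a, ∃ j, EV k (Nat.pair a j) = true := by
      intro a
      have hf := Nat.find_spec (hex a)
      have hmin : ∀ i, i < Nat.find (hex a) → hlt k a i = false := by
        intro i hi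
        have := Nat.find_min (hex a) hi
        simpa using this
      have hpos : Nat.find (hex a) ≠ 0 := by
        intro h0
        rw [h0, hlt_zero] at hf
        exact Bool.noConfusion hf
      obtain ⟨j, hj⟩ := Nat.exists_eq_succ_of_ne_zero hpos
      refine ⟨j, ?_⟩
      rw [EV_iff]
      simp only [Nat.unpair_pair]
      rw [hj] at hf hmin
      exact ⟨hf, hmin j (Nat.lt_succ_self j)⟩
    choose g hg using hstep
    have hinj : Function.Injective (fun a => Nat.pair a (g a)) := by
      intro a a' haa
      simp only at haa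
      have := congrArg (fun n => (Nat.unpair n).1) haa
      simpa using this
    exact Set.infinite_of_injective_forall_mem hinj hg

end Pool.Agent.H887R3.SL
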