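import Pool.Agent.H887R3.SL.Defs

set_option autoImplicit false

namespace Pool.Agent.H887R3.SL

namespace EVPRIMx

/-- the step of the recursion of `hlt` -/
def step (p : ℕ × ℕ) (q : ℕ × Bool) : Bool :=
  q.2 && (Nat.Partrec.Code.evaln p.2 (Denumerable.ofNat Nat.Partrec.Code p.1)
    (Nat.pair p.1 (q.1 + 1))).isSome

/-- the start of the recursion of `hlt` -/
def start (p : ℕ × ℕ) : Bool :=
  (Nat.Partrec.Code.evaln p.2 (Denumerable.ofNat Nat.Partrec.Code p.1) (Nat.pair p.1 0)).isSome

theorem primrec_step : Primrec₂ step := by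
  have hev : Primrec fun z : (ℕ × ℕ) × (ℕ × Bool) =>
      Nat.Partrec.Code.evaln z.1.2 (Denumerable.ofNat Nat.Partrec.Code z.1.1)
        (Nat.pair z.1.1 (z.2.1 + 1)) := by
    have := Nat.Partrec.Code.primrec_evaln.comp
      (f := fun a : (ℕ × Nat.Partrec.Code) × ℕ => Nat.Partrec.Code.evaln a.1.1 a.1.2 a.2)
      (g := fun z : (ℕ × ℕ) × (ℕ × Bool) =>
        ((z.1.2, Denumerable.ofNat Nat.Partrec.Code z.1.1), Nat.pair z.1.1 (z.2.1 + 1)))
      (Primrec.pair (Primrec.pair (Primrec.snd.comp Primrec.fst)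
        ((Primrec.ofNat Nat.Partrec.Code).comp (Primrec.fst.comp Primrec.fst)))
        (Primrec₂.natPair.comp (Primrec.fst.comp Primrec.fst)
          (Primrec.succ.comp (Primrec.fst.comp Primrec.snd))))
    exact this
  exact Primrec.and.comp (Primrec.snd.comp Primrec.snd) (Primrec.option_isSome.comp hev)

theorem primrec_start : Primrec start := by
  have hev : Primrec fun z : ℕ × ℕ =>
      Nat.Partrec.Code.evaln z.2 (Denumerable.ofNat Nat.Partrec.Code z.1) (Nat.pair z.1 0) := by
    have := Nat.Partrec.Code.primrec_evaln.comp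
      (f := fun a : (ℕ × Nat.Partrec.Code) × ℕ => Nat.Partrec.Code.evaln a.1.1 a.1.2 a.2)
      (g := fun z : ℕ × ℕ => ((z.2, Denumerable.ofNat Nat.Partrec.Code z.1), Nat.pair z.1 0))
      (Primrec.pair (Primrec.pair Primrec.snd
        ((Primrec.ofNat Nat.Partrec.Code).comp Primrec.fst))
        (Primrec₂.natPair.comp Primrec.fst (Primrec.const 0)))
    exact this
  exact Primrec.option_isSome.comp hev

theorem primrec_hlt : Primrec₂ fun (p : ℕ × ℕ) (a : ℕ) => hlt p.1 a p.2 := by
  have h := Primrec.nat_rec primrec_start primrec_step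
  exact h

end EVPRIMx

theorem t_EVPRIM : S_EVPRIM := by
  have h1 : Primrec fun z : ℕ × ℕ => hlt z.1 z.2.unpair.1 (z.2.unpair.2 + 1) := by
    have hf : Primrec fun z : ℕ × ℕ => (z.1, z.2.unpair.2 + 1) := Primrec.pair Primrec.fst
      (Primrec.succ.comp (Primrec.snd.comp (Primrec.unpair.comp Primrec.snd)))
    have hg : Primrec fun z : ℕ × ℕ => z.2.unpair.1 :=
      Primrec.fst.comp (Primrec.unpair.comp Primrec.snd)
    exact EVPRIMx.primrec_hlt.comp hf hg
  have h2 : Primrec fun z : ℕ × ℕ => hlt z.1 z.2.unpair.1 z.2.unpair.2 := by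
    have hf : Primrec fun z : ℕ × ℕ => (z.1, z.2.unpair.2) := Primrec.pair Primrec.fst
      (Primrec.snd.comp (Primrec.unpair.comp Primrec.snd))
    have hg : Primrec fun z : ℕ × ℕ => z.2.unpair.1 :=
      Primrec.fst.comp (Primrec.unpair.comp Primrec.snd)
    exact EVPRIMx.primrec_hlt.comp hf hg
  exact Primrec.and.comp h1 (Primrec.not.comp h2)

end Pool.Agent.H887R3.SL
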