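import Pool.Agent.H887R3.SL.DefsB

set_option autoImplicit false

/-!
# The diagonal argument
-/

namespace Pool.Agent.H887R3.SL

theorem t_FIN : S_FIN := by
  intro d T v hv hT
  rintro ⟨R, hR, hTR⟩
  obtain ⟨f, hf, hRf⟩ := ComputablePred.computable_iff.1 hR
  have h1 : Computable (fun p : ℕ × ℕ => !f (v p.1.unpair.1, p.1.unpair.2, p.2)) := by
    have h2 : Computable (fun p : ℕ × ℕ => p.1.unpair) :=
      Computable.unpair.comp Computable.fst
    have h3 : Computable (fun p : ℕ × ℕ => (v p.1.unpair.1, p.1.unpair.2, p.2)) :=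
      (hv.comp (Computable.fst.comp h2)).pair ((Computable.snd.comp h2).pair Computable.snd)
    exact (Primrec.not.to_comp).comp (hf.comp h3)
  have hψ : Partrec (fun x : ℕ => Nat.rfind
      (PFun.lift (fun b : ℕ => !f (v x.unpair.1, x.unpair.2, b)))) := by
    have h4 : Computable₂ (fun (x b : ℕ) => !f (v x.unpair.1, x.unpair.2, b)) := h1
    exact Partrec.rfind h4.partrec₂
  obtain ⟨c, hc⟩ := Nat.Partrec.Code.exists_code.1 (Partrec.nat_iff.1 hψ)
  have key : ∀ a : ℕ, (Nat.Partrec.Code.eval
      (Denumerable.ofNat Nat.Partrec.Code (Encodable.encode c)) (Nat.pair (Encodable.encode c) a)).Dom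
      ↔ ∃ b, f (v (Encodable.encode c), a, b) = false := by
    intro a
    rw [Denumerable.ofNat_encode, hc]
    show (Nat.rfind (PFun.lift (fun b : ℕ => !f (v (Nat.pair (Encodable.encode c) a).unpair.1,
      (Nat.pair (Encodable.encode c) a).unpair.2, b)))).Dom ↔ _
    rw [Nat.rfind_dom]
    simp only [Nat.unpair_pair, PFun.coe_val]
    constructor
    · rintro ⟨b, hb, -⟩
      refine ⟨b, ?_⟩
      rw [Part.mem_some_iff] at hb
      cases hh : f (v (Encodable.encode c), a, b)
      · rfl
      · rw [hh] at hb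
        simp at hb
    · rintro ⟨b, hb⟩
      refine ⟨b, ?_, ?_⟩
      · rw [Part.mem_some_iff, hb]
        rfl
      · intro m _
        exact trivial
  have h2 := hT (Encodable.encode c)
  have h3 := hTR (v (Encodable.encode c))
  rw [hRf] at h3
  by_cases h : T (v (Encodable.encode c))
  · obtain ⟨a, ha⟩ := h3.1 h
    obtain ⟨b, hb⟩ := (key a).1 (h2.1 h a)
    have := ha b
    simp only [hb] at this
    exact absurd this (by simp)
  · apply h
    rw [h2]
    intro a
    rw [key]
    by_contra h4
    push Not at h4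
    apply h
    rw [h3]
    refine ⟨a, fun b => ?_⟩
    exact Bool.eq_true_of_not_eq_false (h4 b)

end Pool.Agent.H887R3.SL
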