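import Pool.Agent.H887R3.SL.Defs

/-! Task LAYER: adding a layer which is determined by a local rule. -/

set_option autoImplicit false

namespace Pool.Agent.H887R3.SL

theorem t_LAYER : S_LAYER := by
  intro D B B' R Q ok' hfin hR hQ huniq
  obtain ⟨A, hA, ok, π, ⟨c, hc⟩, hf⟩ := hR
  refine ⟨A × B', inferInstance,
    fun z win => ok z (fun d => (win d).1) ∧ ok' z (fun d => π (win d).1) (fun d => (win d).2),
    Prod.snd, ⟨fun w => (c w, Q w), ?_⟩, ?_⟩
  · intro w
    refine ⟨hc w, ?_⟩
    show ok' (zp w) (fun δ => π (c (off w δ))) (fun δ => Q (off w δ))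
    have h : (fun δ => π (c (off w δ))) = fun δ => R (off w δ) := by
      funext δ
      exact hf c hc _
    rw [h]
    exact hQ w
  · intro c' hc' w
    have h1 : Valid ok (fun w => (c' w).1) := fun w => (hc' w).1
    refine huniq (fun w => (c' w).2) (fun w => ?_) w
    have h : (fun δ => R (off w δ)) = fun δ => π (c' (off w δ)).1 := by
      funext δ
      exact (hf _ h1 _).symm
    rw [h]
    exact (hc' w).2

end Pool.Agent.H887R3.SL
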