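import Pool.Agent.H887R3.SL.Defs

/-!
# Adding coordinates and renaming
-/

set_option autoImplicit false

namespace Pool.Agent.H887R3.SL

theorem LIFT_off_zero {D : ℕ} (w : Fin D → ℕ) : off w (fun _ => false) = w := by
  funext i
  simp [off]

theorem LIFT_up {D : ℕ} {A : Type} {g : (Fin D → ℕ) → A} {J : Fin D → Prop}
    (h : ∀ w δ, (∀ j, J j → δ j = false) → g (off w δ) = g w) (w m : Fin D → ℕ)
    (h1 : ∀ j, w j ≤ m j) (h2 : ∀ j, J j → w j = m j) : g m = g w := by
  have key : ∀ n : ℕ, g (fun j => min (w j + n) (m j)) = g w := by
    intro n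
    induction n with
    | zero =>
      congr 1
      funext j
      simp [h1 j]
    | succ n ih =>
      rw [← ih, ← h (fun j => min (w j + n) (m j)) (fun j => decide (w j + n < m j))]
      · congr 1
        funext j
        unfold off
        by_cases hj : w j + n < m j
        · simp only [hj, decide_true, if_true]
          omega
        · simp only [hj, decide_false, Bool.false_eq_true, if_false]
          omega
      · intro j hj
        have := h2 j hj
        simp only [decide_eq_false_iff_not]
        omega
  rw [← key (∑ j, m j)]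
  congr 1
  funext j
  have := Finset.single_le_sum (f := m) (fun _ _ => Nat.zero_le _) (Finset.mem_univ j)
  omega

theorem LIFT_const {D : ℕ} {A : Type} {g : (Fin D → ℕ) → A} {J : Fin D → Prop}
    (h : ∀ w δ, (∀ j, J j → δ j = false) → g (off w δ) = g w) (w w' : Fin D → ℕ)
    (h2 : ∀ j, J j → w j = w' j) : g w = g w' := by
  rw [← LIFT_up h w (fun j => max (w j) (w' j)) (fun j => le_max_left _ _)
      (fun j hj => by simp [h2 j hj]),
    ← LIFT_up h w' (fun j => max (w j) (w' j)) (fun j => le_max_right _ _)
      (fun j hj => by simp [h2 j hj])]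

theorem t_LIFT : S_LIFT := by
  rintro D D' B R ι hι ⟨A, hA, ok, π, ⟨c, hc⟩, hR⟩
  refine ⟨A, hA, fun z win => (∀ δ δ' : Fin D' → Bool, (∀ i, δ (ι i) = δ' (ι i)) →
    win δ = win δ') ∧ ok (fun i => z (ι i))
      (fun δ => win (Function.extend ι δ (fun _ => false))), π,
    ⟨fun w => c (fun i => w (ι i)), fun w => ⟨fun δ δ' h => ?_, ?_⟩⟩, fun c' hc' w => ?_⟩
  · show c _ = c _
    congr 1
    funext i
    unfold off
    rw [h i]
  · have := hc (fun i => w (ι i))
    have e : (fun δ => c (off (fun i => w (ι i)) δ)) = fun δ : Fin D → Bool =>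
        c (fun i => off w (Function.extend ι δ (fun _ => false)) (ι i)) := by
      funext δ
      congr 1
      funext i
      unfold off
      rw [hι.extend_apply]
    rw [e] at this
    exact this
  · have h1 : ∀ w w' : Fin D' → ℕ, (∀ i, w (ι i) = w' (ι i)) → c' w = c' w' := by
      intro w w' hw
      refine LIFT_const (J := fun j => ∃ i, ι i = j) (fun w δ hδ => ?_) w w' ?_
      · have := (hc' w).1 δ (fun _ => false) (fun i => hδ _ ⟨i, rfl⟩)
        simp only [LIFT_off_zero] at this
        exact this
      · rintro _ ⟨i, rfl⟩
        exact hw i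
    have h2 : Valid ok (fun v : Fin D → ℕ => c' (Function.extend ι v (fun _ => 0))) := by
      intro v
      have h3 := (hc' (Function.extend ι v (fun _ => 0))).2
      have e1 : (fun i => zp (Function.extend ι v (fun _ => 0)) (ι i)) = zp v := by
        funext i
        unfold zp
        rw [hι.extend_apply]
      have e2 : (fun δ : Fin D → Bool => c' (off (Function.extend ι v (fun _ => 0))
          (Function.extend ι δ (fun _ => false)))) =
          fun δ => c' (Function.extend ι (off v δ) (fun _ => 0)) := by
        funext δ
        apply h1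
        intro i
        unfold off
        rw [hι.extend_apply, hι.extend_apply, hι.extend_apply]
      rw [e1, e2] at h3
      exact h3
    have h4 := hR _ h2 (fun i => w (ι i))
    refine Eq.trans ?_ h4
    show π (c' w) = π (c' _)
    congr 1
    apply h1
    intro i
    rw [hι.extend_apply]

end Pool.Agent.H887R3.SL
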