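import Pool.Agent.H887R3.SL.DefsB

/-!
# Locality of the conditions
-/

set_option autoImplicit false

namespace Pool.Agent.H887R3.SL

theorem LOCAL_ev {D : ℕ} (j k : Fin D ⊕ Fin 4) :
    0 ≤ (ev j : Pos D) k ∧ (ev j : Pos D) k ≤ 1 := by
  unfold ev
  by_cases h : k = j
  · subst h
    simp
  · rw [Pi.single_eq_of_ne h]
    simp

theorem t_LOCAL : S_LOCAL := by
  intro D A ok π i0 i1 x x' w w' h hL
  have h0 : x' w' = x w := by
    have := h 0 (fun j => by simp)
    rw [add_zero, add_zero] at this
    exact this.symm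
  have hp : ∀ j, x' (w' + ev j) = x (w + ev j) := fun j =>
    (h (ev j) (fun k => ⟨by linarith [(LOCAL_ev j k).1], (LOCAL_ev j k).2⟩)).symm
  have hm : ∀ j, x' (w' - ev j) = x (w - ev j) := fun j => by
    rw [sub_eq_add_neg, sub_eq_add_neg]
    refine (h (-ev j) (fun k => ?_)).symm
    rw [Pi.neg_apply]
    exact ⟨by linarith [(LOCAL_ev j k).2], by linarith [(LOCAL_ev j k).1]⟩
  have ho : ∀ δ, x' (w' + ofs δ) = x (w + ofs δ) := fun δ => by
    refine (h (ofs δ) (fun k => ?_)).symm
    unfold ofs
    rcases k with k | k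
    · rw [Sum.elim_inl]
      split_ifs <;> norm_num
    · rw [Sum.elim_inr]
      norm_num
  have hd : x' (w' + ev (Sum.inl i0) + ev (Sum.inr 1)) =
      x (w + ev (Sum.inl i0) + ev (Sum.inr 1)) := by
    rw [add_assoc, add_assoc]
    refine (h (ev (Sum.inl i0) + ev (Sum.inr 1)) (fun k => ?_)).symm
    rw [Pi.add_apply]
    refine ⟨by linarith [(LOCAL_ev (Sum.inl i0) k).1, (LOCAL_ev (Sum.inr 1) k).1], ?_⟩
    rcases k with k | k
    · have e : (ev (Sum.inr 1) : Pos D) (Sum.inl k) = 0 := by
        unfold ev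
        exact Pi.single_eq_of_ne (by simp) _
      rw [e]
      linarith [(LOCAL_ev (Sum.inl i0) (Sum.inl k)).2]
    · have e : (ev (Sum.inl i0) : Pos D) (Sum.inr k) = 0 := by
        unfold ev
        exact Pi.single_eq_of_ne (by simp) _
      rw [e]
      linarith [(LOCAL_ev (Sum.inr 1) (Sum.inr k) : 0 ≤ (ev _ : Pos D) _ ∧ _).2]
  have hA : Act i0 x' w' ↔ Act i0 x w := by
    unfold Act
    rw [h0, hp]
  constructor
  · simpa only [h0, hp] using hL.mu_const
  · simpa only [h0, hp] using hL.mu_mono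
  · simpa only [h0, hp] using hL.c_const
  · simpa only [h0, hm, ho] using hL.c_ok
  · simpa only [h0, hp] using hL.M_const
  · simpa only [h0, hp] using hL.M_anti
  · simpa only [h0, hp] using hL.K_const
  · simpa only [h0, hm] using hL.K_orig
  · simpa only [h0, hp] using hL.ST_const
  · simpa only [h0, hd, hp] using hL.S_diag
  · simpa only [h0, hp] using hL.S_end
  · simpa only [h0, hm, hp] using hL.S_start
  · simpa only [h0] using hL.S_zero
  · simpa only [h0, hp] using hL.O_const
  · simpa only [h0, hA] using hL.O_zero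
  · simpa only [h0, hA, hm] using hL.O_start
  · simpa only [h0, hA, hp] using hL.O_event
  · simpa only [h0, hA, hp] using hL.O_pass

end Pool.Agent.H887R3.SL
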