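import Pool.Agent.H887R3.SL.Defs

/-! MAP: images of forced functions. -/

set_option autoImplicit false

namespace Pool.Agent.H887R3.SL

theorem t_MAP : S_MAP := by
  rintro D B B' R φ ⟨A, hA, ok, π, hex, h⟩
  exact ⟨A, hA, ok, fun a => φ (π a), hex, fun c hc w => congrArg φ (h c hc w)⟩

end Pool.Agent.H887R3.SL
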