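import Pool.Agent.H887R3.SL.DefsB

/-! Task MARK. -/

set_option autoImplicit false

namespace Pool.Agent.H887R3.SL

private theorem mark_anti {D : ℕ} {A : Type} {ok : Rule D A} {π : A → Bool} {i0 i1 : Fin D}
    {x : Pos D → Cell D A} (hL : ∀ w, Loc ok π i0 i1 x w) (n : ℕ) : ∀ w : Pos D,
    (x (w + n • ev (Sum.inl i0))).M = true → (x w).M = true := by
  induction n with
  | zero => intro w h; simpa using h
  | succ n ih =>
    intro w h
    apply ih w
    apply (hL _).M_anti
    rw [add_assoc, ← succ_nsmul]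
    exact h

private theorem mark_coord {D : ℕ} (i0 : Fin D) (w : Pos D) (n : ℕ) :
    (w + n • (ev (Sum.inl i0) : Pos D)) (Sum.inl i0) = w (Sum.inl i0) + n := by
  simp [ev]

theorem t_MARK (h1 : S_CONST) : S_MARK := by
  intro D A ok π i0 i1 x o hL hmu hnp
  have hM : ∀ w w' : Pos D, w (Sum.inl i0) = w' (Sum.inl i0) → (x w).M = (x w').M := by
    intro w w' h
    refine h1 (Fin D ⊕ Fin 4) Bool (fun w => (x w).M) (fun j => j = Sum.inl i0) ?_ w w' ?_
    · intro w j hj
      exact (hL w).M_const j hj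
    · rintro j rfl
      exact h
  obtain ⟨w0, hw0⟩ : ∃ w0, Act i0 x w0 := by
    by_contra hcon
    push Not at hcon
    apply hnp
    intro z
    have hz := hL z
    have a1 := hz.O_zero (hcon z)
    have a2 := (hL (z + ev (Sum.inr 0))).O_zero (hcon _)
    have hST := hz.ST_const (Sum.inr 0) (by simp) (by simp) (by simp)
    apply Cell.ext
    · funext i
      exact hz.mu_const i (Sum.inr 0) (by simp)
    · exact hz.c_const 0
    · exact hz.M_const (Sum.inr 0) (by simp)
    · exact hz.K_const 0 (by decide)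
    · exact hST.1
    · exact hST.2
    · rw [a1.1, a2.1]
    · rw [a1.2, a2.2]
  obtain ⟨b1, b2, b3⟩ := hw0
  have ho : o i0 ≤ w0 (Sum.inl i0) := (hmu w0 i0).1 (b1 i0)
  refine ⟨(w0 (Sum.inl i0) - o i0).toNat, ?_⟩
  have e : o i0 + ((w0 (Sum.inl i0) - o i0).toNat : ℤ) = w0 (Sum.inl i0) := by
    rw [Int.toNat_of_nonneg (by omega)]
    ring
  intro w
  rw [e]
  constructor
  · intro hw
    by_contra hlt
    push Not at hlt
    obtain ⟨n, hn⟩ : ∃ n : ℕ, w (Sum.inl i0) = w0 (Sum.inl i0) + 1 + n :=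
      ⟨(w (Sum.inl i0) - (w0 (Sum.inl i0) + 1)).toNat, by omega⟩
    have c1 : (x (w0 + ev (Sum.inl i0) + n • ev (Sum.inl i0))).M = true := by
      rw [← hw]
      apply hM
      rw [mark_coord, hn]
      simp [ev]
    have c2 := mark_anti hL n _ c1
    rw [b3] at c2
    exact absurd c2 (by simp)
  · intro hle
    obtain ⟨n, hn⟩ : ∃ n : ℕ, w0 (Sum.inl i0) = w (Sum.inl i0) + n :=
      ⟨(w0 (Sum.inl i0) - w (Sum.inl i0)).toNat, by omega⟩
    apply mark_anti hL n
    rw [← b2]
    apply hM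
    rw [mark_coord, hn]

end Pool.Agent.H887R3.SL
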