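import Pool.Agent.H887R3.SL.Defs

/-!
# Task MONO: more auxiliary coordinates
-/

set_option autoImplicit false

namespace Pool.Agent.H887R3.SL

theorem t_MONO (h1 : S_LIFT) : S_MONO := by
  intro n E E' B R hE hR
  have hle : n + E ≤ n + E' := Nat.add_le_add_left hE n
  have h := h1 (n + E) (n + E') B (fun w => R (fun i => w (Fin.castAdd E i)))
    (Fin.castLE hle) (Fin.castLE_injective hle) hR
  have hi : ∀ i : Fin n, Fin.castLE hle (Fin.castAdd E i) = Fin.castAdd E' i := fun i => by
    ext
    simp
  simp only [hi] at h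
  exact h

end Pool.Agent.H887R3.SL
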