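import Pool.Agent.H887R3.SL.DefsB

set_option autoImplicit false

namespace Pool.Agent.H887R3.SL

namespace ODOE

/-- number of events before `n` -/
def e (r : ℕ → Bool) : ℕ → ℕ
  | 0 => 0
  | (n + 1) => e r n + (if r n = true then 1 else 0)

/-- carries -/
def cc (r : ℕ → Bool) (n : ℕ) (p : ℤ) : Bool := decide (p % 2 ^ (e r n) = 2 ^ (e r n) - 1)

/-- bits -/
def b (r : ℕ → Bool) (n : ℕ) (p : ℤ) : Bool := r n && decide ((p / 2 ^ (e r n)) % 2 = 1)

theorem div1 (p E : ℤ) (hE : 0 < E) : (p + 1) / E = p / E + (if p % E = E - 1 then 1 else 0) := by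
  have h1 := Int.emod_add_mul_ediv p E
  have h2 := Int.emod_nonneg p hE.ne'
  have h3 := Int.emod_lt_of_pos p hE
  split_ifs with h
  · have h4 : p + 1 = E * (p / E + 1) := by linarith
    rw [h4, Int.mul_ediv_cancel_left _ hE.ne']
  · have h4 : p + 1 = (p % E + 1) + E * (p / E) := by linarith
    rw [h4, Int.add_mul_ediv_left _ _ hE.ne', Int.ediv_eq_zero_of_lt (by linarith) (by omega)]
    ring

theorem mod2 (p E : ℤ) (hE : 0 < E) :
    (p % (E * 2) = E * 2 - 1) ↔ (p % E = E - 1 ∧ (p / E) % 2 = 1) := by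
  have h1 := Int.emod_add_mul_ediv p E
  have h2 := Int.emod_nonneg p hE.ne'
  have h3 := Int.emod_lt_of_pos p hE
  have k1 := Int.emod_add_mul_ediv (p / E) 2
  have k2 := Int.emod_nonneg (p / E) (by norm_num : (2:ℤ) ≠ 0)
  have k3 := Int.emod_lt_of_pos (p / E) (by norm_num : (0:ℤ) < 2)
  set s := (p / E) % 2 with hs
  set q := (p / E) / 2 with hq
  have hp : p = (p % E + E * s) + (E * 2) * q := by
    have : E * (p / E) = E * (s + 2 * q) := by rw [k1]
    linarith
  have hs01 : s = 0 ∨ s = 1 := by omega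
  have hmod : p % (E * 2) = p % E + E * s := by
    conv_lhs => rw [hp]
    rw [Int.add_mul_emod_self_left]
    refine Int.emod_eq_of_lt ?_ ?_
    · rcases hs01 with h | h <;> rw [h] <;> linarith
    · rcases hs01 with h | h <;> rw [h] <;> linarith
  rw [hmod]
  rcases hs01 with h | h
  · rw [h]
    constructor
    · intro h'
      exfalso
      linarith
    · rintro ⟨_, h'⟩
      exact absurd h' (by norm_num)
  · rw [h]
    constructor
    · intro h'
      exact ⟨by linarith, rfl⟩
    · rintro ⟨h', _⟩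
      linarith

theorem odo (r : ℕ → Bool) : Odo r (b r) (cc r) := by
  refine ⟨?_, ?_, ?_⟩
  · intro p
    unfold cc
    simp [e]
  · intro n p hr
    have hE : (0:ℤ) < 2 ^ (e r n) := by positivity
    constructor
    · unfold b cc
      rw [hr, Bool.true_and, Bool.true_and, div1 p _ hE]
      have k2 := Int.emod_nonneg (p / 2 ^ (e r n)) (by norm_num : (2:ℤ) ≠ 0)
      have k3 := Int.emod_lt_of_pos (p / 2 ^ (e r n)) (by norm_num : (0:ℤ) < 2)
      by_cases h : p % 2 ^ (e r n) = 2 ^ (e r n) - 1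
      · rw [if_pos h, decide_eq_true h, Bool.xor_true]
        by_cases h' : (p / 2 ^ (e r n)) % 2 = 1
        · rw [decide_eq_true h', decide_eq_false (by omega)]
          rfl
        · rw [decide_eq_false h', decide_eq_true (by omega)]
          rfl
      · rw [if_neg h, decide_eq_false h, add_zero, Bool.xor_false]
    · unfold b cc
      rw [hr, Bool.true_and]
      have he : e r (n + 1) = e r n + 1 := by
        show e r n + (if r n = true then 1 else 0) = _
        rw [if_pos hr]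
      rw [he, pow_succ, ← Bool.decide_and]
      exact decide_eq_decide.2 (mod2 p _ hE)
  · intro n p hr
    have he : e r (n + 1) = e r n := by
      show e r n + (if r n = true then 1 else 0) = _
      rw [hr]
      simp
    constructor
    · unfold b
      rw [hr, Bool.false_and]
    · unfold cc
      rw [he]

theorem e_mono (r : ℕ → Bool) : Monotone (e r) :=
  monotone_nat_of_le_succ fun n => by
    show e r n ≤ e r n + (if r n = true then 1 else 0)
    omega

theorem unb (r : ℕ → Bool) (h : {n | r n = true}.Infinite) (k : ℕ) : ∃ n, r n = true ∧ k ≤ e r n := by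
  induction k with
  | zero =>
    obtain ⟨n, hn⟩ := h.nonempty
    exact ⟨n, hn, Nat.zero_le _⟩
  | succ k ih =>
    obtain ⟨n0, hn0, hk⟩ := ih
    obtain ⟨n, hn, hlt⟩ := h.exists_gt n0
    refine ⟨n, hn, ?_⟩
    have h1 : e r (n0 + 1) = e r n0 + 1 := by
      show e r n0 + (if r n0 = true then 1 else 0) = _
      rw [if_pos hn0]
    have h2 := e_mono r (show n0 + 1 ≤ n from hlt)
    omega

theorem dvdP (r : ℕ → Bool) (n : ℕ) (hr : r n = true) (P : ℤ) (hP : ∀ p, b r n (p + P) = b r n p) :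
    (2:ℤ) ^ (e r n + 1) ∣ P := by
  have hE : (0:ℤ) < 2 ^ (e r n) := by positivity
  have hx := ((odo r).2.1 n (2 ^ (e r n) - 1 + P) hr).1
  have h1 : b r n (2 ^ (e r n) - 1) = false := by
    unfold b
    rw [hr, Bool.true_and, Int.ediv_eq_zero_of_lt (by linarith) (by linarith)]
    simp
  have h2 : b r n (2 ^ (e r n)) = true := by
    unfold b
    rw [hr, Bool.true_and, Int.ediv_self hE.ne']
    simp
  have h3 : b r n (2 ^ (e r n) - 1 + P) = false := by rw [hP, h1]
  have h4 : b r n (2 ^ (e r n) - 1 + P + 1) = true := by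
    have : (2:ℤ) ^ (e r n) - 1 + P + 1 = 2 ^ (e r n) + P := by ring
    rw [this, hP, h2]
  rw [h4, h3, Bool.false_xor] at hx
  have hc : (2 ^ (e r n) - 1 + P) % 2 ^ (e r n) = 2 ^ (e r n) - 1 := by
    unfold cc at hx
    exact of_decide_eq_true hx.symm
  have hb : ¬ ((2 ^ (e r n) - 1 + P) / 2 ^ (e r n)) % 2 = 1 := by
    unfold b at h3
    rw [hr, Bool.true_and] at h3
    exact of_decide_eq_false h3
  have h5 := Int.emod_add_mul_ediv (2 ^ (e r n) - 1 + P) (2 ^ (e r n))
  rw [hc] at h5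
  have h6 : P = 2 ^ (e r n) * ((2 ^ (e r n) - 1 + P) / 2 ^ (e r n)) := by linarith
  have h7 : (2:ℤ) ∣ (2 ^ (e r n) - 1 + P) / 2 ^ (e r n) := by
    have k2 := Int.emod_nonneg ((2 ^ (e r n) - 1 + P) / 2 ^ (e r n)) (by norm_num : (2:ℤ) ≠ 0)
    have k3 := Int.emod_lt_of_pos ((2 ^ (e r n) - 1 + P) / 2 ^ (e r n)) (by norm_num : (0:ℤ) < 2)
    exact Int.dvd_of_emod_eq_zero (by omega)
  rw [pow_succ]
  rw [h6]
  exact mul_dvd_mul_left _ h7

end ODOE

theorem t_ODOE : S_ODOE := by
  intro r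
  refine ⟨ODOE.b r, ODOE.cc r, ODOE.odo r, ?_⟩
  intro hinf P hP
  obtain ⟨n, hn, hk⟩ := ODOE.unb r hinf P.natAbs
  have h1 := ODOE.dvdP r n hn P (hP n)
  refine Int.eq_zero_of_abs_lt_dvd h1 ?_
  rw [Int.abs_eq_natAbs]
  have h2 : P.natAbs < 2 ^ (ODOE.e r n + 1) :=
    lt_of_le_of_lt hk ((Nat.lt_two_pow_self).trans (Nat.pow_lt_pow_right (by norm_num) (Nat.lt_succ_self _)))
  exact_mod_cast h2

end Pool.Agent.H887R3.SL
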