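import Pool.Agent.H887R3.SL.DefsB

/-! Task ODOP (helper439): with finitely many events the odometer is periodic. -/

set_option autoImplicit false

namespace Pool.Agent.H887R3.SL

namespace ODOP

theorem mult {f : ℤ → Bool} {P : ℤ} (h : ∀ p, f (p + P) = f p) (j : ℕ) (p : ℤ) :
    f (p + j * P) = f p := by
  induction j with
  | zero => simp
  | succ j ih =>
    have e : p + ((j + 1 : ℕ) : ℤ) * P = (p + j * P) + P := by push_cast; ring
    rw [e, h, ih]

theorem pow_mult {f : ℤ → Bool} {a N : ℕ} (h : ∀ p, f (p + 2 ^ a) = f p) (haN : a ≤ N) (p : ℤ) :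
    f (p + 2 ^ N) = f p := by
  have h1 := mult h (2 ^ (N - a)) p
  have e : (((2 ^ (N - a) : ℕ) : ℤ)) * 2 ^ a = 2 ^ N := by
    push_cast
    rw [← pow_add]
    congr 1
    omega
  rwa [e] at h1

theorem double {b c : ℤ → Bool} {P : ℤ} (hc : ∀ p, c (p + P) = c p)
    (hb : ∀ p, b (p + 1) = xor (b p) (c p)) (hP : 0 ≤ P) (p : ℤ) : b (p + 2 * P) = b p := by
  have hstep : ∀ q, xor (b (q + 1 + P)) (b (q + 1)) = xor (b (q + P)) (b q) := by
    intro q
    have e : q + 1 + P = (q + P) + 1 := by ring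
    rw [e, hb, hb, hc]
    cases b (q + P) <;> cases b q <;> cases c q <;> rfl
  have hconst : ∀ (j : ℕ) (q : ℤ), xor (b (q + j + P)) (b (q + j)) = xor (b (q + P)) (b q) := by
    intro j q
    induction j with
    | zero => simp
    | succ j ih =>
      have e : q + ((j + 1 : ℕ) : ℤ) = (q + j) + 1 := by push_cast; ring
      rw [e, hstep, ih]
  obtain ⟨n, rfl⟩ := Int.eq_ofNat_of_zero_le hP
  have h1 := hconst n p
  have e : p + 2 * (n : ℤ) = p + n + n := by ring
  rw [e]
  revert h1
  cases b (p + n + n) <;> cases b (p + n) <;> cases b p <;> simp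

theorem b_per {r : ℕ → Bool} {b cc : ℕ → ℤ → Bool} (h : Odo r b cc) {n a : ℕ}
    (hr : r n = true) (hc : ∀ p, cc n (p + 2 ^ a) = cc n p) (p : ℤ) :
    b n (p + 2 ^ (a + 1)) = b n p := by
  have e : (2 : ℤ) ^ (a + 1) = 2 * 2 ^ a := by ring
  rw [e]
  exact double hc (fun p => (h.2.1 n p hr).1) (by positivity) p

/-- number of events before `n` -/
def cn (r : ℕ → Bool) (n : ℕ) : ℕ := ((Finset.range n).filter (fun m => r m = true)).card

theorem cn_succ_true {r : ℕ → Bool} {n : ℕ} (h : r n = true) : cn r (n + 1) = cn r n + 1 := by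
  unfold cn
  rw [Finset.range_add_one, Finset.filter_insert, if_pos h, Finset.card_insert_of_notMem]
  simp

theorem cn_succ_false {r : ℕ → Bool} {n : ℕ} (h : r n = false) : cn r (n + 1) = cn r n := by
  unfold cn
  rw [Finset.range_add_one, Finset.filter_insert, if_neg (by simp [h])]

theorem cn_le {r : ℕ → Bool} {N : ℕ} (hN : ∀ n, N ≤ n → r n = false) (n : ℕ) : cn r n ≤ N := by
  unfold cn
  have h1 : (Finset.range n).filter (fun m => r m = true) ⊆ Finset.range N := by
    intro m hm
    rw [Finset.mem_filter] at hm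
    rw [Finset.mem_range]
    by_contra hcon
    have := hN m (by omega)
    rw [this] at hm
    exact absurd hm.2 (by simp)
  have h2 := Finset.card_le_card h1
  rwa [Finset.card_range] at h2

theorem cc_per {r : ℕ → Bool} {b cc : ℕ → ℤ → Bool} (h : Odo r b cc) (n : ℕ) :
    ∀ p, cc n (p + 2 ^ (cn r n)) = cc n p := by
  induction n with
  | zero => intro p; rw [h.1, h.1]
  | succ n ih =>
    intro p
    cases hr : r n
    · rw [cn_succ_false hr, (h.2.2 n _ hr).2, (h.2.2 n _ hr).2, ih]
    · rw [cn_succ_true hr, (h.2.1 n _ hr).2, (h.2.1 n _ hr).2, b_per h hr ih,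
        pow_mult ih (Nat.le_succ _)]

end ODOP

open ODOP in
theorem t_ODOP : S_ODOP := by
  intro r b cc N h hN n p
  refine ⟨?_, pow_mult (cc_per h n) (cn_le hN n) p⟩
  cases hr : r n
  · rw [(h.2.2 n _ hr).1, (h.2.2 n _ hr).1]
  · have h1 : cn r n + 1 ≤ N := by
      rw [← cn_succ_true hr]
      exact cn_le hN (n + 1)
    exact pow_mult (b_per h hr (cc_per h n)) h1 p

end Pool.Agent.H887R3.SL
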