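import Pool.Agent.H887R3.SL.DefsB

set_option autoImplicit false

namespace Pool.Agent.H887R3.SL

theorem t_ORIG (hC : S_CONST) : S_ORIG := by
  intro D A ok π i0 i1 x hL hq
  -- a cell with `K = true`
  have hK : ∃ w0, (x w0).K = true := by
    by_contra hno
    push Not at hno
    apply hq
    intro z
    have hz := hL z
    have hKz : (x (z + ev (Sum.inr 3))).K = (x z).K := by
      have h1 := hno z
      have h2 := hno (z + ev (Sum.inr 3))
      have h1 := Bool.eq_false_iff.2 h1
      have h2 := Bool.eq_false_iff.2 h2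
      rw [h1, h2]
    apply Cell.ext
    · funext i
      exact hz.mu_const i (Sum.inr 3) (by simp)
    · exact hz.c_const 3
    · exact hz.M_const (Sum.inr 3) (by simp)
    · exact hKz
    · exact (hz.ST_const (Sum.inr 3) (by simp) (by simp) (by simp)).1
    · exact (hz.ST_const (Sum.inr 3) (by simp) (by simp) (by simp)).2
    · exact (hz.O_const 3 (by decide)).1
    · exact (hz.O_const 3 (by decide)).2
  obtain ⟨w0, hw0⟩ := hK
  have horig := (hL w0).K_orig hw0
  refine ⟨fun i => w0 (Sum.inl i), ?_⟩
  intro w i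
  show (x w).mu i = true ↔ w0 (Sum.inl i) ≤ w (Sum.inl i)
  -- `mu i` depends only on the coordinate `inl i`
  have hdep : ∀ v v' : Pos D, v (Sum.inl i) = v' (Sum.inl i) → (x v).mu i = (x v').mu i := by
    intro v v' hv
    refine hC (Fin D ⊕ Fin 4) Bool (fun v => (x v).mu i) (fun j => j = Sum.inl i) ?_ v v' ?_
    · intro u j hj
      exact (hL u).mu_const i j hj
    · intro j hj
      rw [hj]; exact hv
  have hup : ∀ (v : Pos D) (n : ℕ), (x v).mu i = true →
      (x (v + (n : ℤ) • ev (Sum.inl i))).mu i = true := by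
    intro v n hv
    induction n with
    | zero => simpa using hv
    | succ n ih =>
      have h1 := (hL (v + (n : ℤ) • ev (Sum.inl i))).mu_mono i ih
      have h2 : v + (n : ℤ) • ev (Sum.inl i) + ev (Sum.inl i) =
          v + ((n + 1 : ℕ) : ℤ) • (ev (Sum.inl i) : Pos D) := by
        push_cast
        rw [add_smul, one_smul, add_assoc]
      rw [h2] at h1
      exact h1
  have hev : (ev (Sum.inl i) : Pos D) (Sum.inl i) = 1 := by simp [ev]
  constructor
  · intro hw
    by_contra hlt
    push Not at hlt
    obtain ⟨n, hn⟩ := Int.eq_ofNat_of_zero_le (show 0 ≤ w0 (Sum.inl i) - 1 - w (Sum.inl i) by omega)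
    have h1 := hup w n hw
    have h2 := (horig i).2
    have h3 : (x (w + (n : ℤ) • ev (Sum.inl i))).mu i = (x (w0 - ev (Sum.inl i))).mu i := by
      apply hdep
      simp only [Pi.add_apply, Pi.sub_apply, Pi.smul_apply, hev, smul_eq_mul]
      omega
    rw [h3, h2] at h1
    exact absurd h1 (by simp)
  · intro hle
    obtain ⟨n, hn⟩ := Int.eq_ofNat_of_zero_le (show 0 ≤ w (Sum.inl i) - w0 (Sum.inl i) by omega)
    have h1 := hup w0 n (horig i).1
    have h3 : (x w).mu i = (x (w0 + (n : ℤ) • ev (Sum.inl i))).mu i := by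
      apply hdep
      simp only [Pi.add_apply, Pi.smul_apply, hev, smul_eq_mul]
      omega
    rw [h3]; exact h1

end Pool.Agent.H887R3.SL
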