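import Pool.Agent.H887R3.SL.Defs

set_option autoImplicit false

namespace Pool.Agent.H887R3.SL

theorem t_PI : S_PI := by
  intro D n B R h
  choose A hA ok π hex hval using h
  choose c hc using hex
  haveI : ∀ i, Finite (A i) := hA
  refine ⟨∀ i, A i, inferInstance, fun z W => ∀ i, ok i z (fun δ => W δ i), fun a i => π i (a i),
    ⟨fun w i => c i w, fun w i => hc i w⟩, ?_⟩
  intro c' hc' w
  funext i
  exact hval i (fun w => c' w i) (fun w => hc' w i) w

end Pool.Agent.H887R3.SL
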