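import Pool.Agent.H887R3.SL.DefsB

/-! # PPER: with finitely many events the configuration is `p`-periodic (helper144) -/

set_option autoImplicit false

namespace Pool.Agent.H887R3.SL

namespace PPER

theorem iter {D : ℕ} {B : Type} (g : Pos D → B) (e : Pos D) (h : ∀ z, g (z + e) = g z) (n : ℤ) :
    ∀ z, g (z + n • e) = g z := by
  induction n using Int.induction_on with
  | zero => intro z; simp
  | succ i ih =>
    intro z
    have h1 : z + ((i : ℤ) + 1) • e = (z + (i : ℤ) • e) + e := by
      rw [add_smul, one_smul, add_assoc]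
    rw [h1, h, ih]
  | pred i ih =>
    intro z
    have h1 : z + (-(i : ℤ)) • e = (z + (-(i : ℤ) - 1) • e) + e := by
      rw [sub_smul, one_smul]; abel
    rw [← h (z + (-(i : ℤ) - 1) • e), ← h1, ih]

end PPER

open PPER

theorem t_PPER (hP : S_ODOP) : S_PPER := by
  classical
  intro D A ok π i0 i1 r x o m N hne hL hmu hM hc hN
  -- the period vector
  have hV : ∀ (w : Pos D) (i : Fin D),
      (w + (2 ^ N : ℤ) • ev (Sum.inr 0) : Pos D) (Sum.inl i) = w (Sum.inl i) := by
    intro w i; simp [ev]
  -- all the components except b, cc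
  have k1 : ∀ z, (x (z + (2 ^ N : ℤ) • ev (Sum.inr 0))).mu = (x z).mu :=
    iter (fun z => (x z).mu) _ (fun z => by
      funext i; exact (hL z).mu_const i (Sum.inr 0) (by simp)) _
  have k2 : ∀ z, (x (z + (2 ^ N : ℤ) • ev (Sum.inr 0))).c = (x z).c :=
    iter (fun z => (x z).c) _ (fun z => (hL z).c_const 0) _
  have k3 : ∀ z, (x (z + (2 ^ N : ℤ) • ev (Sum.inr 0))).M = (x z).M :=
    iter (fun z => (x z).M) _ (fun z => (hL z).M_const (Sum.inr 0) (by simp)) _
  have k4 : ∀ z, (x (z + (2 ^ N : ℤ) • ev (Sum.inr 0))).K = (x z).K :=
    iter (fun z => (x z).K) _ (fun z => (hL z).K_const 0 (by decide)) _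
  have k5 : ∀ z, (x (z + (2 ^ N : ℤ) • ev (Sum.inr 0))).S = (x z).S :=
    iter (fun z => (x z).S) _ (fun z => ((hL z).ST_const (Sum.inr 0) (by simp) (by simp)
      (by simp)).1) _
  have k6 : ∀ z, (x (z + (2 ^ N : ℤ) • ev (Sum.inr 0))).T = (x z).T :=
    iter (fun z => (x z).T) _ (fun z => ((hL z).ST_const (Sum.inr 0) (by simp) (by simp)
      (by simp)).2) _
  -- active cells
  have hact : ∀ w : Pos D, Act i0 x w ↔ (∀ i, o i ≤ w (Sum.inl i)) ∧ w (Sum.inl i0) = o i0 + m := by
    intro w
    unfold Act
    have h1 : (w + ev (Sum.inl i0) : Pos D) (Sum.inl i0) = w (Sum.inl i0) + 1 := by simp [ev]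
    have h2 : (x (w + ev (Sum.inl i0))).M = false ↔ ¬ (w (Sum.inl i0) + 1 ≤ o i0 + m) := by
      rw [← h1, ← hM]
      simp
    rw [hM, h2]
    constructor
    · rintro ⟨h3, h4, h5⟩
      exact ⟨fun i => (hmu w i).1 (h3 i), by omega⟩
    · rintro ⟨h3, h4⟩
      exact ⟨fun i => (hmu w i).2 (h3 i), by omega, by omega⟩
  have kbc : ∀ z, (x (z + (2 ^ N : ℤ) • ev (Sum.inr 0))).b = (x z).b ∧
      (x (z + (2 ^ N : ℤ) • ev (Sum.inr 0))).cc = (x z).cc := by
    intro z
    by_cases hz : Act i0 x z
    · -- active
      have hz' := (hact z).1 hz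
      -- cells of the odometer
      set cell : ℕ → ℤ → Pos D := fun n p =>
        Function.update (Function.update z (Sum.inl i1) (o i1 + n)) (Sum.inr 0) p with hcell
      have hc1 : ∀ n p, cell n p (Sum.inl i1) = o i1 + n := by
        intro n p; simp [hcell]
      have hc0 : ∀ n p, cell n p (Sum.inl i0) = o i0 + m := by
        intro n p
        have h1 : (Sum.inl i0 : Fin D ⊕ Fin 4) ≠ Sum.inl i1 := by simpa using hne
        simp [hcell, Function.update_of_ne h1, hz'.2]
      have hcge : ∀ n p i, o i ≤ cell n p (Sum.inl i) := by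
        intro n p i
        by_cases hi : i = i1
        · subst hi; rw [hc1]; omega
        · have h1 : (Sum.inl i : Fin D ⊕ Fin 4) ≠ Sum.inl i1 := by simpa using hi
          simp only [hcell]
          rw [Function.update_of_ne (by simp), Function.update_of_ne h1]
          exact hz'.1 i
      have hcact : ∀ n p, Act i0 x (cell n p) := fun n p => (hact _).2 ⟨hcge n p, hc0 n p⟩
      have hcp : ∀ n p, cell n p + ev (Sum.inr 0) = cell n (p + 1) := by
        intro n p
        funext j
        simp only [hcell, Pi.add_apply, ev]
        by_cases hj : j = Sum.inr 0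
        · subst hj; simp
        · rw [Function.update_of_ne hj, Function.update_of_ne hj, Pi.single_apply, if_neg hj,
            add_zero]
      have hcn : ∀ n p, cell n p + ev (Sum.inl i1) = cell (n + 1) p := by
        intro n p
        funext j
        simp only [hcell, Pi.add_apply, ev]
        by_cases hj : j = Sum.inr 0
        · subst hj; simp
        · rw [Function.update_of_ne hj, Function.update_of_ne hj]
          by_cases hj1 : j = Sum.inl i1
          · subst hj1; simp [add_assoc]
          · rw [Function.update_of_ne hj1, Function.update_of_ne hj1, Pi.single_apply, if_neg hj1,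
              add_zero]
      have hodo : Odo r (fun n p => (x (cell n p)).b) (fun n p => (x (cell n p)).cc) := by
        refine ⟨?_, ?_, ?_⟩
        · intro p
          apply (hL (cell 0 p)).O_start (hcact 0 p)
          have h1 : ¬ (x (cell 0 p - ev (Sum.inl i1))).mu i1 = true := by
            rw [hmu]
            have h2 : (cell 0 p - ev (Sum.inl i1) : Pos D) (Sum.inl i1) = o i1 - 1 := by
              rw [Pi.sub_apply, hc1]
              simp [ev]
            rw [h2]; omega
          simpa using h1
        · intro n p hr
          have hπ : π (x (cell n p)).c = true := by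
            rw [hc (cell n p) n (hcge n p) (hc0 n p) (hc1 n p), hr]
          have h1 := (hL (cell n p)).O_event (hcact n p) hπ
          rw [hcp, hcn] at h1
          exact h1
        · intro n p hr
          have hπ : π (x (cell n p)).c = false := by
            rw [hc (cell n p) n (hcge n p) (hc0 n p) (hc1 n p), hr]
          have h1 := (hL (cell n p)).O_pass (hcact n p) hπ
          rw [hcn] at h1
          exact h1
      have hper := hP r _ _ N hodo hN
      -- the cell z
      have hn : 0 ≤ z (Sum.inl i1) - o i1 := by have := hz'.1 i1; omega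
      have e1 : cell (z (Sum.inl i1) - o i1).toNat (z (Sum.inr 0)) = z := by
        funext j
        simp only [hcell]
        by_cases hj : j = Sum.inr 0
        · subst hj; simp
        · rw [Function.update_of_ne hj]
          by_cases hj1 : j = Sum.inl i1
          · subst hj1
            rw [Function.update_self, Int.toNat_of_nonneg hn]; omega
          · rw [Function.update_of_ne hj1]
      have e2 : cell (z (Sum.inl i1) - o i1).toNat (z (Sum.inr 0) + 2 ^ N)
          = z + (2 ^ N : ℤ) • ev (Sum.inr 0) := by
        funext j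
        simp only [hcell]
        by_cases hj : j = Sum.inr 0
        · subst hj; simp [ev]
        · rw [Function.update_of_ne hj]
          have h3 : (z + (2 ^ N : ℤ) • ev (Sum.inr 0) : Pos D) j = z j := by
            simp [ev, Pi.single_apply, hj]
          rw [h3]
          by_cases hj1 : j = Sum.inl i1
          · subst hj1
            rw [Function.update_self, Int.toNat_of_nonneg hn]; omega
          · rw [Function.update_of_ne hj1]
      have h4 := hper (z (Sum.inl i1) - o i1).toNat (z (Sum.inr 0))
      rw [e1, e2] at h4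
      exact h4
    · have hz2 : ¬ Act i0 x (z + (2 ^ N : ℤ) • ev (Sum.inr 0)) := by
        rw [hact] at hz ⊢
        simpa only [hV] using hz
      have h1 := (hL z).O_zero hz
      have h2 := (hL (z + (2 ^ N : ℤ) • ev (Sum.inr 0))).O_zero hz2
      rw [h1.1, h1.2, h2.1, h2.2]
      exact ⟨rfl, rfl⟩
  intro z
  exact Cell.ext (k1 z) (k2 z) (k3 z) (k4 z) (k5 z) (k6 z) (kbc z).1 (kbc z).2

end Pool.Agent.H887R3.SL
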