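import Pool.Agent.H887R3.SL.Defs

/-! Task PREC (helper504): primitive recursion. -/

set_option autoImplicit false

namespace Pool.Agent.H887R3.SL

/-- The unit vector. -/
def prSing {D : ℕ} (e : Fin D) : Fin D → Bool := fun i => decide (i = e)

lemma pr_off_false {D : ℕ} (w : Fin D → ℕ) : off w (fun _ => false) = w := by
  funext i
  simp [off]

lemma pr_off_sing {D : ℕ} (w : Fin D → ℕ) (e : Fin D) :
    off w (prSing e) = Function.update w e (w e + 1) := by
  funext i
  unfold off prSing
  by_cases h : i = e
  · subst h
    simp
  · simp [h]

lemma pr_const {D : ℕ} (h : (Fin D → ℕ) → Bool) (e : Fin D)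
    (hh : ∀ w, h (off w (prSing e)) = h w) (w : Fin D → ℕ) (t : ℕ) :
    h (Function.update w e t) = h w := by
  have key : ∀ t, h (Function.update w e t) = h (Function.update w e 0) := by
    intro t
    induction t with
    | zero => rfl
    | succ t ih =>
      have := hh (Function.update w e t)
      rw [pr_off_sing, Function.update_self, Function.update_idem] at this
      rw [this, ih]
  have h1 := key (w e)
  rw [Function.update_eq_self] at h1
  rw [key t, h1]

theorem t_PREC (hCOMMON : S_COMMON) (hRENAME : S_RENAME) (hLAYER : S_LAYER) (hLIFT : S_LIFT)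
    (hMAP : S_MAP) (hDIAG : S_DIAG) : S_PREC := by
  intro n f g hf hg
  -- the recursive function
  let FF : ℕ → (Fin n → ℕ) → ℕ := fun a x =>
    Nat.rec (motive := fun _ => ℕ) (f x) (fun y r => g (Fin.cons y (Fin.cons r x))) a
  have FF0 : ∀ x, FF 0 x = f x := fun x => rfl
  have FFs : ∀ a x, FF (a + 1) x = g (Fin.cons a (Fin.cons (FF a x) x)) := fun a x => rfl
  -- the three relations
  let ιf : Fin (n + 1) → Fin (n + 3) := fun i => ⟨i.val + 1, by omega⟩
  let ιg : Fin (n + 3) → Fin (n + 3) := fun i =>
    if i.val = 0 then ⟨0, by omega⟩ else if i.val = 1 then ⟨n + 1, by omega⟩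
    else if i.val < n + 2 then ⟨i.val - 1, by omega⟩ else ⟨n + 2, by omega⟩
  let ιd : Fin 2 → Fin (n + 3) := fun i => ⟨n + 1 + i.val, by omega⟩
  have hιf : Function.Injective ιf := by
    intro i j hij
    have := congrArg Fin.val hij
    simp only [ιf] at this
    exact Fin.ext (by omega)
  have hιg : Function.Injective ιg := by
    intro i j hij
    have h1 := congrArg Fin.val hij
    simp only [ιg] at h1
    apply Fin.ext
    have hi := i.isLt
    have hj := j.isLt
    split_ifs at h1 <;> simp only at h1 <;> omega
  have hιd : Function.Injective ιd := by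
    intro i j hij
    have := congrArg Fin.val hij
    simp only [ιd] at this
    exact Fin.ext (by omega)
  have Df := hRENAME (n + 1) (n + 3) _ ιf hιf hf
  have Dg := hRENAME (n + 3) (n + 3) _ ιg hιg hg
  have Dd := hRENAME 2 (n + 3) _ ιd hιd hDIAG
  let RR : Fin 3 → (Fin (n + 3) → ℕ) → Bool :=
    ![fun w => decide (w (ιf (Fin.last n)) = f (fun i => w (ιf i.castSucc))),
      fun w => decide (w (ιg (Fin.last (n + 2))) = g (fun i => w (ιg i.castSucc))),
      fun w => decide (w (ιd 0) = w (ιd 1))]
  obtain ⟨E, hE⟩ := hCOMMON (n + 3) 3 RR (by
    intro j
    fin_cases j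
    · exact Df
    · exact Dg
    · exact Dd)
  -- coordinates
  let i0 : Fin (n + 3 + E) := ⟨0, by omega⟩
  let i1 : Fin (n + 3 + E) := ⟨n + 1, by omega⟩
  let i2 : Fin (n + 3 + E) := ⟨n + 2, by omega⟩
  let ix : Fin n → Fin (n + 3 + E) := fun i => ⟨i.val + 1, by omega⟩
  have h01 : i0 ≠ i1 := by intro h; have := congrArg Fin.val h; simp only [i0, i1] at this; omega
  have h02 : i0 ≠ i2 := by intro h; have := congrArg Fin.val h; simp only [i0, i2] at this; omega
  have h12 : i1 ≠ i2 := by intro h; have := congrArg Fin.val h; simp only [i1, i2] at this; omega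
  have hx0 : ∀ i, ix i ≠ i0 := by
    intro i h; have := congrArg Fin.val h; simp only [i0, ix] at this; omega
  have hx1 : ∀ i, ix i ≠ i1 := by
    intro i h; have := congrArg Fin.val h; simp only [i1, ix] at this; omega
  have hx2 : ∀ i, ix i ≠ i2 := by
    intro i h; have := congrArg Fin.val h; simp only [i2, ix] at this; omega
  let Q1 : (Fin (n + 3 + E) → ℕ) → Bool := fun w => decide (w i1 = FF (w i0) (fun i => w (ix i)))
  let Q2 : (Fin (n + 3 + E) → ℕ) → Bool := fun w => decide (w i2 = FF (w i0) (fun i => w (ix i)))
  have RR0 : ∀ w : Fin (n + 3 + E) → ℕ, RR 0 (fun i => w (Fin.castAdd E i)) =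
      decide (w i1 = f (fun i => w (ix i))) := fun w => rfl
  have RR1 : ∀ w : Fin (n + 3 + E) → ℕ, RR 1 (fun i => w (Fin.castAdd E i)) =
      decide (w i2 = g (Fin.cons (w i0) (Fin.cons (w i1) (fun i => w (ix i))))) := by
    intro w
    have e1 : Fin.castAdd E (ιg (Fin.last (n + 2))) = i2 := by
      apply Fin.ext
      simp [ιg, i2]
    have e2 : (fun i : Fin (n + 2) => w (Fin.castAdd E (ιg i.castSucc))) =
        (Fin.cons (w i0) (Fin.cons (w i1) (fun i => w (ix i))) : Fin (n + 2) → ℕ) := by
      funext i
      refine Fin.cases ?_ (fun i => ?_) i
      · rw [Fin.cons_zero]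
        congr 1
      · rw [Fin.cons_succ]
        refine Fin.cases ?_ (fun i => ?_) i
        · rw [Fin.cons_zero]
          congr 1
        · rw [Fin.cons_succ]
          congr 1
          apply Fin.ext
          have hi := i.isLt
          simp only [ιg, ix, Fin.val_castAdd, Fin.val_castSucc, Fin.val_succ]
          rw [if_neg (by omega), if_neg (by omega), if_pos (by omega)]
          simp
    change decide (w (Fin.castAdd E (ιg (Fin.last (n + 2)))) =
      g (fun i => w (Fin.castAdd E (ιg i.castSucc)))) = _
    rw [e1, e2]
  have RR2 : ∀ w : Fin (n + 3 + E) → ℕ, RR 2 (fun i => w (Fin.castAdd E i)) =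
      decide (w i1 = w i2) := fun w => rfl
  -- the layer
  let ok' : (Fin (n + 3 + E) → Bool) → ((Fin (n + 3 + E) → Bool) → (Fin 3 → Bool)) →
      ((Fin (n + 3 + E) → Bool) → (Bool × Bool)) → Prop := fun z win win' =>
    (win' (prSing i2)).1 = (win' (fun _ => false)).1 ∧
    (win' (prSing i1)).2 = (win' (fun _ => false)).2 ∧
    (win (fun _ => false) 2 = true → (win' (fun _ => false)).1 = (win' (fun _ => false)).2) ∧
    (z i0 = true → (win' (fun _ => false)).1 = win (fun _ => false) 0) ∧
    ((win' (fun _ => false)).1 = true → (win' (prSing i0)).2 = win (fun _ => false) 1)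
  have hLay := hLAYER (n + 3 + E) (Fin 3 → Bool) (Bool × Bool)
    (fun w (j : Fin 3) => RR j (fun i => w (Fin.castAdd E i))) (fun w => (Q1 w, Q2 w)) ok'
    inferInstance hE
    (by
      intro w
      simp only [ok', pr_off_false, RR0, RR1, RR2, pr_off_sing, Q1, Q2]
      refine ⟨?_, ?_, ?_, ?_, ?_⟩
      · rw [Function.update_of_ne h12, Function.update_of_ne h02]
        simp only [Function.update_of_ne (hx2 _)]
      · rw [Function.update_of_ne h12.symm, Function.update_of_ne h01]
        simp only [Function.update_of_ne (hx1 _)]
      · intro h
        rw [decide_eq_true_iff] at h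
        rw [h]
      · intro h
        have h' : w i0 = 0 := by simpa [zp] using h
        rw [h', FF0]
      · intro h
        rw [decide_eq_true_iff] at h
        rw [Function.update_of_ne h02.symm, Function.update_self, FFs, h]
        simp only [Function.update_of_ne (hx0 _)])
    (by
      intro Q' hQ'
      have ha : ∀ w, (Q' (off w (prSing i2))).1 = (Q' w).1 := by
        intro w
        have := (hQ' w).1
        simpa only [pr_off_false] using this
      have hb : ∀ w, (Q' (off w (prSing i1))).2 = (Q' w).2 := by
        intro w
        have := (hQ' w).2.1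
        simpa only [pr_off_false] using this
      have hc : ∀ w, w i1 = w i2 → (Q' w).1 = (Q' w).2 := by
        intro w hw
        have := (hQ' w).2.2.1
        simp only [pr_off_false, RR2] at this
        exact this (decide_eq_true hw)
      have hd : ∀ w, w i0 = 0 → (Q' w).1 = decide (w i1 = f (fun i => w (ix i))) := by
        intro w hw
        have := (hQ' w).2.2.2.1
        simp only [pr_off_false, RR0] at this
        exact this (decide_eq_true hw)
      have he : ∀ w, (Q' w).1 = true → (Q' (Function.update w i0 (w i0 + 1))).2 =
          decide (w i2 = g (Fin.cons (w i0) (Fin.cons (w i1) (fun i => w (ix i))))) := by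
        intro w hw
        have := (hQ' w).2.2.2.2
        simp only [pr_off_false, RR1, pr_off_sing] at this
        exact this hw
      have ca : ∀ w t, (Q' (Function.update w i2 t)).1 = (Q' w).1 :=
        pr_const (fun w => (Q' w).1) i2 ha
      have cb : ∀ w t, (Q' (Function.update w i1 t)).2 = (Q' w).2 :=
        pr_const (fun w => (Q' w).2) i1 hb
      -- from the first to the second component
      have s1 : ∀ a, (∀ w, w i0 = a → (Q' w).1 = Q1 w) → ∀ w, w i0 = a → (Q' w).2 = Q2 w := by
        intro a h w hw
        have h1 := hc (Function.update w i1 (w i2)) (by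
          rw [Function.update_self, Function.update_of_ne h12.symm])
        rw [cb] at h1
        rw [← h1, h _ (by rw [Function.update_of_ne h01, hw])]
        simp only [Q1, Q2]
        rw [Function.update_self, Function.update_of_ne h01]
        simp only [Function.update_of_ne (hx1 _)]
      have s2 : ∀ a, (∀ w, w i0 = a → (Q' w).2 = Q2 w) → ∀ w, w i0 = a → (Q' w).1 = Q1 w := by
        intro a h w hw
        have h1 := hc (Function.update w i2 (w i1)) (by
          rw [Function.update_self, Function.update_of_ne h12])
        rw [ca] at h1
        rw [h1, h _ (by rw [Function.update_of_ne h02, hw])]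
        simp only [Q1, Q2]
        rw [Function.update_self, Function.update_of_ne h02]
        simp only [Function.update_of_ne (hx2 _)]
      have main : ∀ a, (∀ w, w i0 = a → (Q' w).1 = Q1 w) := by
        intro a
        induction a with
        | zero =>
          intro w hw
          rw [hd w hw]
          simp only [Q1]
          rw [hw, FF0]
        | succ a ih =>
          apply s2
          intro w hw
          -- the cell below
          let w1 := Function.update w i0 a
          let w2 := Function.update w1 i1 (FF a (fun i => w (ix i)))
          have e0 : w2 i0 = a := by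
            simp only [w2, w1]
            rw [Function.update_of_ne h01, Function.update_self]
          have e1 : w2 i1 = FF a (fun i => w (ix i)) := by
            simp only [w2]
            rw [Function.update_self]
          have e2 : w2 i2 = w i2 := by
            simp only [w2, w1]
            rw [Function.update_of_ne h12.symm, Function.update_of_ne h02.symm]
          have e3 : ∀ i, w2 (ix i) = w (ix i) := by
            intro i
            simp only [w2, w1]
            rw [Function.update_of_ne (hx1 i), Function.update_of_ne (hx0 i)]
          have t1 : (Q' w2).1 = true := by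
            rw [ih w2 e0]
            simp only [Q1]
            rw [e0, e1]
            simp only [e3]
            simp
          have t2 := he w2 t1
          rw [e0, e1, e2] at t2
          simp only [e3] at t2
          have t3 : Function.update w2 i0 (a + 1) =
              Function.update w i1 (FF a (fun i => w (ix i))) := by
            funext i
            by_cases hi0 : i = i0
            · subst hi0
              rw [Function.update_self, Function.update_of_ne h01, hw]
            · rw [Function.update_of_ne hi0]
              by_cases hi1 : i = i1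
              · subst hi1
                rw [e1, Function.update_self]
              · simp only [w2, w1]
                rw [Function.update_of_ne hi1, Function.update_of_ne hi0,
                  Function.update_of_ne hi1]
          rw [t3, cb] at t2
          rw [t2]
          simp only [Q2]
          rw [hw, FFs]
      intro w
      exact Prod.ext (main (w i0) w rfl) (s1 (w i0) (main (w i0)) w rfl))
  -- projection and renaming
  have hP := hMAP (n + 3 + E) (Bool × Bool) Bool _ Prod.fst hLay
  have hD : n + 3 + E = n + 2 + (1 + E) := by omega
  refine ⟨1 + E, ?_⟩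
  have hL := hLIFT (n + 3 + E) (n + 2 + (1 + E)) Bool _ (Fin.cast hD) (Fin.cast_injective hD) hP
  exact hL

end Pool.Agent.H887R3.SL
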