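import Pool.Agent.H887R3.SL.Defs

/-!
# PRIM: primitive recursive functions are definable
-/

set_option autoImplicit false

namespace Pool.Agent.H887R3.SL

theorem t_PRIM (hcomp : S_COMP) (hprec : S_PREC) (hren : S_RENAME) (hdiag : S_DIAG)
    (hzero : S_ZERO) (hsucc : S_SUCC) : S_PRIM := by
  intro n f hf
  induction hf with
  | zero => exact hzero
  | succ =>
    have h1 : (fun w : Fin 2 → ℕ => decide (w (Fin.last 1) =
        Nat.succ (List.Vector.ofFn (fun i : Fin 1 => w i.castSucc)).head)) =
        (fun w : Fin 2 → ℕ => decide (w 1 = w 0 + 1)) := by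
      funext w
      rfl
    show Def 2 _
    rw [h1]
    exact hsucc
  | @get n i =>
    have hinj : Function.Injective (fun j : Fin 2 =>
        if j = 0 then Fin.last n else i.castSucc) := by
      intro a b hab
      fin_cases a <;> fin_cases b <;> simp_all [Fin.ext_iff] <;> omega
    have h1 := hren 2 (n + 1) (fun w => decide (w 0 = w 1)) _ hinj hdiag
    have h2 : (fun w : Fin (n + 1) → ℕ => decide (w (Fin.last n) =
        (List.Vector.ofFn (fun i : Fin n => w i.castSucc)).get i)) =
        (fun w : Fin (n + 1) → ℕ => (fun w : Fin 2 → ℕ => decide (w 0 = w 1))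
          (fun j : Fin 2 => w (if j = 0 then Fin.last n else i.castSucc))) := by
      funext w
      simp
    show Def (n + 1) _
    rw [h2]
    exact h1
  | @comp m n f g hf hg ihf ihg =>
    exact hcomp m n (fun y => f (List.Vector.ofFn y)) (fun i x => g i (List.Vector.ofFn x)) ihf ihg
  | @prec n f g hf hg ihf ihg =>
    have h1 := hprec n (fun t => f (List.Vector.ofFn t)) (fun t => g (List.Vector.ofFn t)) ihf ihg
    exact h1

end Pool.Agent.H887R3.SL
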