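import Pool.Agent.H887R3.SL.Defs

/-! Task PROD of helper887's project SL: product of two forced functions. -/

set_option autoImplicit false

namespace Pool.Agent.H887R3.SL

theorem t_PROD : S_PROD := by
  rintro D B B' R R' ⟨A, hA, ok, π, ⟨c, hc⟩, hR⟩ ⟨A', hA', ok', π', ⟨c', hc'⟩, hR'⟩
  refine ⟨A × A', inferInstance,
    fun z f => ok z (fun δ => (f δ).1) ∧ ok' z (fun δ => (f δ).2),
    fun a => (π a.1, π' a.2), ⟨fun w => (c w, c' w), fun w => ⟨hc w, hc' w⟩⟩, ?_⟩
  intro d hd w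
  have h1 := hR (fun w => (d w).1) (fun w => (hd w).1) w
  have h2 := hR' (fun w => (d w).2) (fun w => (hd w).2) w
  exact Prod.ext h1 h2

end Pool.Agent.H887R3.SL
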