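import Pool.Agent.H887R3.SL.Defs

set_option autoImplicit false

namespace Pool.Agent.H887R3.SL

theorem t_REL (hPRIM : S_PRIM) (hELIM : S_ELIM) (hRENAME : S_RENAME) (hBOOL : S_BOOL)
    (hZERO : S_ZERO) : S_REL := by
  intro R hR
  have hr : Primrec₂ (fun m n : ℕ => (R m n).toNat) := by
    have h1 : Primrec (fun b : Bool => b.toNat) := Primrec.dom_finite _
    exact h1.comp₂ hR
  have h1 := hPRIM 2 (fun v => (R v.head v.tail.head).toNat) (Nat.Primrec'.prim_iff₂.2 hr)
  have hP : Def (2 + 1) (fun w => decide (w 2 = (R (w 0) (w 1)).toNat)) := by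
    unfold DefFun at h1
    exact h1
  have hZ : Def (2 + 1) (fun w => decide (w 2 = 0)) := by
    have := hRENAME 1 3 (fun w => decide (w 0 = 0)) (fun _ => 2)
      (fun a b _ => Subsingleton.elim a b) hZERO
    exact this
  have hR1 : Def (2 + 1) (fun w => !decide (w 2 = 0)) :=
    hBOOL 3 1 (fun _ w => decide (w 2 = 0)) (fun g => !(g 0)) (fun _ => hZ)
  refine hELIM 2 1 _ _ _ hP hR1 ?_ ?_
  · intro x
    refine ⟨fun _ => (R (x 0) (x 1)).toNat, ?_⟩
    simp only [decide_eq_true_eq]
    rfl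
  · intro x y h
    have h2 : y 0 = (R (x 0) (x 1)).toNat := by
      simp only [decide_eq_true_eq] at h
      exact h
    change R (x 0) (x 1) = !decide (y 0 = 0)
    rw [h2]
    cases R (x 0) (x 1) <;> rfl

end Pool.Agent.H887R3.SL
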