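import Pool.Agent.H887R3.SL.Defs

set_option autoImplicit false

/-! Task RENAME. -/

namespace Pool.Agent.H887R3.SL

theorem rename_inj {n m E : ℕ} (ι : Fin n → Fin m) (hι : Function.Injective ι) :
    Function.Injective (Fin.addCases (motive := fun _ => Fin (m + E))
      (fun i => Fin.castAdd E (ι i)) (fun j => Fin.natAdd m j) : Fin (n + E) → Fin (m + E)) := by
  intro x y
  refine Fin.addCases (fun i => ?_) (fun i => ?_) x <;>
    refine Fin.addCases (fun j => ?_) (fun j => ?_) y <;>
    simp only [Fin.addCases_left, Fin.addCases_right] <;> intro h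
  · rw [hι (Fin.castAdd_injective m E h)]
  · exfalso
    have := congrArg Fin.val h
    simp only [Fin.val_castAdd, Fin.val_natAdd] at this
    have := (ι i).isLt
    omega
  · exfalso
    have := congrArg Fin.val h
    simp only [Fin.val_castAdd, Fin.val_natAdd] at this
    have := (ι j).isLt
    omega
  · rw [Fin.natAdd_injective E m h]

theorem t_RENAME (hLIFT : S_LIFT) : S_RENAME := by
  rintro n m R ι hι ⟨E, hF⟩
  refine ⟨E, ?_⟩
  have h := hLIFT (n + E) (m + E) Bool _ _ (rename_inj (E := E) ι hι) hF
  simpa only [Fin.addCases_left] using h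

end Pool.Agent.H887R3.SL
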