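import Pool.Agent.H887R3.SL.DefsB

/-!
# The slope is given by the mark
-/

set_option autoImplicit false

namespace Pool.Agent.H887R3.SL

namespace SLOaux

theorem vk_eq (D : ℕ) (k : ℤ) :
    vk D k = k • (ev (Sum.inr 1) : Pos D) + ev (Sum.inr 2) := by
  funext j
  rcases j with i | j
  · simp [vk, ev]
  · fin_cases j <;> simp [vk, ev]

theorem vk_inl (D : ℕ) (k : ℤ) (i : Fin D) : vk D k (Sum.inl i) = 0 := by
  simp [vk]

theorem vk_inr0 (D : ℕ) (k : ℤ) : vk D k (Sum.inr 0) = 0 := by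
  simp [vk]

theorem vk_inr3 (D : ℕ) (k : ℤ) : vk D k (Sum.inr 3) = 0 := by
  simp [vk]

theorem bool_eq {a b : Bool} {p : Prop} (h1 : a = true ↔ p) (h2 : b = true ↔ p) : a = b := by
  rw [Bool.eq_iff_iff, h1, h2]

variable {D : ℕ} {A : Type} {ok : Rule D A} {π : A → Bool} {i0 i1 : Fin D}
  {x : Pos D → Cell D A} {o : Fin D → ℤ} {m : ℕ}

/-- the values of `S` along the diagonal -/
theorem diagS (h : ∀ w, Loc ok π i0 i1 x w)
    (hmu : ∀ w i, (x w).mu i = true ↔ o i ≤ w (Sum.inl i))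
    (hM : ∀ w : Pos D, (x w).M = true ↔ w (Sum.inl i0) ≤ o i0 + m) (j : ℕ) :
    j ≤ m → ∀ w : Pos D, w (Sum.inl i0) = o i0 →
      (x (w + (j : ℤ) • (ev (Sum.inl i0) + ev (Sum.inr 1)))).S = (x w).S := by
  induction j with
  | zero =>
    intro _ w _
    simp
  | succ j ih =>
    intro hj w hw
    have e : w + ((j + 1 : ℕ) : ℤ) • (ev (Sum.inl i0) + ev (Sum.inr 1)) =
        (w + (j : ℤ) • (ev (Sum.inl i0) + ev (Sum.inr 1))) + ev (Sum.inl i0) + ev (Sum.inr 1) := by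
      push_cast
      rw [add_smul, one_smul]
      abel
    rw [e, ← ih (by omega) w hw]
    refine ((h _).S_diag ?_ ?_).1
    · rw [hmu]
      simp [ev, hw]
    · rw [hM]
      simp only [ev, Pi.add_apply, Pi.smul_apply, Pi.single_eq_same, ne_eq, reduceCtorEq,
        not_false_eq_true, Pi.single_eq_of_ne, smul_eq_mul, hw]
      push_cast
      omega

/-- the values of `T` along the coordinate `i0` -/
theorem diagT (h : ∀ w, Loc ok π i0 i1 x w)
    (hmu : ∀ w i, (x w).mu i = true ↔ o i ≤ w (Sum.inl i))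
    (hM : ∀ w : Pos D, (x w).M = true ↔ w (Sum.inl i0) ≤ o i0 + m) (j : ℕ) :
    j ≤ m → ∀ w : Pos D, w (Sum.inl i0) = o i0 →
      (x (w + (j : ℤ) • ev (Sum.inl i0))).T = (x w).T := by
  induction j with
  | zero =>
    intro _ w _
    simp
  | succ j ih =>
    intro hj w hw
    have e : w + ((j + 1 : ℕ) : ℤ) • ev (Sum.inl i0) =
        (w + (j : ℤ) • ev (Sum.inl i0)) + ev (Sum.inl i0) := by
      push_cast
      rw [add_smul, one_smul]
      abel
    rw [e, ← ih (by omega) w hw]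
    refine ((h _).S_diag ?_ ?_).2
    · rw [hmu]
      simp [ev, hw]
    · rw [hM]
      simp only [ev, Pi.add_apply, Pi.smul_apply, Pi.single_eq_same, smul_eq_mul, hw]
      omega

/-- one step in the direction `t` -/
theorem stepS (h : ∀ w, Loc ok π i0 i1 x w)
    (hmu : ∀ w i, (x w).mu i = true ↔ o i ≤ w (Sum.inl i))
    (hM : ∀ w : Pos D, (x w).M = true ↔ w (Sum.inl i0) ≤ o i0 + m) (w : Pos D)
    (hw : w (Sum.inl i0) = o i0) :
    (x (w + ev (Sum.inr 2))).S = (x w).T ∧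
      (x w).T = (x (w - (m : ℤ) • ev (Sum.inr 1))).S := by
  constructor
  · refine (h w).S_start ?_ ?_ ?_
    · rw [hmu, hw]
    · rw [← Bool.not_eq_true, hmu]
      simp [ev, hw]
    · rw [hM, hw]
      omega
  · rw [← diagT h hmu hM m le_rfl w hw]
    have h1 : (x (w + (m : ℤ) • ev (Sum.inl i0))).T = (x (w + (m : ℤ) • ev (Sum.inl i0))).S := by
      refine (h _).S_end ?_ ?_ ?_
      · rw [hmu]
        simp [ev, hw]
      · rw [hM]
        simp [ev, hw]
      · rw [← Bool.not_eq_true, hM]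
        simp [ev, hw]
    rw [h1]
    have h2 := diagS h hmu hM m le_rfl (w - (m : ℤ) • ev (Sum.inr 1)) (by simp [ev, hw])
    rw [← h2]
    congr 2
    rw [smul_add]
    abel

/-- invariance of `S` at the level `o i0` -/
theorem invS0 (h : ∀ w, Loc ok π i0 i1 x w)
    (hmu : ∀ w i, (x w).mu i = true ↔ o i ≤ w (Sum.inl i))
    (hM : ∀ w : Pos D, (x w).M = true ↔ w (Sum.inl i0) ≤ o i0 + m) (w : Pos D)
    (hw : w (Sum.inl i0) = o i0) : (x (w + vk D m)).S = (x w).S := by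
  have hw' : (w + (m : ℤ) • (ev (Sum.inr 1) : Pos D)) (Sum.inl i0) = o i0 := by
    simp [ev, hw]
  obtain ⟨h1, h2⟩ := stepS h hmu hM (w + (m : ℤ) • (ev (Sum.inr 1) : Pos D)) hw'
  rw [vk_eq, ← add_assoc, h1, h2, add_sub_cancel_right]

theorem invS (h : ∀ w, Loc ok π i0 i1 x w)
    (hmu : ∀ w i, (x w).mu i = true ↔ o i ≤ w (Sum.inl i))
    (hM : ∀ w : Pos D, (x w).M = true ↔ w (Sum.inl i0) ≤ o i0 + m) (z : Pos D)
    (j : ℕ) (hj : j ≤ m) (hz : z (Sum.inl i0) = o i0 + j) : (x (z + vk D m)).S = (x z).S := by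
  set w : Pos D := z - (j : ℤ) • (ev (Sum.inl i0) + ev (Sum.inr 1)) with hw
  have hw0 : w (Sum.inl i0) = o i0 := by
    rw [hw]
    simp [ev, hz]
  have e1 : z = w + (j : ℤ) • (ev (Sum.inl i0) + ev (Sum.inr 1)) := by
    rw [hw]
    abel
  have e2 : z + vk D m = (w + vk D m) + (j : ℤ) • (ev (Sum.inl i0) + ev (Sum.inr 1)) := by
    rw [hw]
    abel
  have hw1 : (w + vk D m) (Sum.inl i0) = o i0 := by
    rw [Pi.add_apply, vk_inl, hw0, add_zero]
  rw [e2, diagS h hmu hM j hj _ hw1, invS0 h hmu hM w hw0, e1, diagS h hmu hM j hj _ hw0]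

theorem invT (h : ∀ w, Loc ok π i0 i1 x w)
    (hmu : ∀ w i, (x w).mu i = true ↔ o i ≤ w (Sum.inl i))
    (hM : ∀ w : Pos D, (x w).M = true ↔ w (Sum.inl i0) ≤ o i0 + m) (z : Pos D)
    (j : ℕ) (hj : j ≤ m) (hz : z (Sum.inl i0) = o i0 + j) : (x (z + vk D m)).T = (x z).T := by
  set w : Pos D := z - (j : ℤ) • ev (Sum.inl i0) with hw
  have hw0 : w (Sum.inl i0) = o i0 := by
    rw [hw]
    simp [ev, hz]
  have e1 : z = w + (j : ℤ) • ev (Sum.inl i0) := by
    rw [hw]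
    abel
  have e2 : z + vk D m = (w + vk D m) + (j : ℤ) • ev (Sum.inl i0) := by
    rw [hw]
    abel
  have hw1 : (w + vk D m) (Sum.inl i0) = o i0 := by
    rw [Pi.add_apply, vk_inl, hw0, add_zero]
  have hw2 : (w + (ev (Sum.inr 2) : Pos D)) (Sum.inl i0) = o i0 := by
    rw [Pi.add_apply, hw0]
    simp [ev]
  rw [e2, diagT h hmu hM j hj _ hw1, e1, diagT h hmu hM j hj _ hw0,
    ← (stepS h hmu hM _ hw1).1, ← (stepS h hmu hM _ hw0).1]
  have e3 : w + vk D m + ev (Sum.inr 2) = (w + ev (Sum.inr 2)) + vk D m := by abel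
  rw [e3]
  exact invS0 h hmu hM _ hw2

end SLOaux

open SLOaux in
theorem t_SLO (h1 : S_CONST) : S_SLO := by
  intro D A ok π i0 i1 x o m h hmu hM z
  have hST : (x (z + vk D m)).S = (x z).S ∧ (x (z + vk D m)).T = (x z).T := by
    by_cases hz : o i0 ≤ z (Sum.inl i0) ∧ z (Sum.inl i0) ≤ o i0 + m
    · obtain ⟨j, hj⟩ := Int.eq_ofNat_of_zero_le (sub_nonneg.2 hz.1)
      have hjm : j ≤ m := by omega
      have hz' : z (Sum.inl i0) = o i0 + j := by omega
      exact ⟨invS h hmu hM z j hjm hz', invT h hmu hM z j hjm hz'⟩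
    · have h0 : ∀ w : Pos D, w (Sum.inl i0) = z (Sum.inl i0) →
          (x w).S = false ∧ (x w).T = false := by
        intro w hw
        apply (h w).S_zero
        rw [Bool.and_eq_false_iff, ← Bool.not_eq_true, ← Bool.not_eq_true, hmu, hM, hw]
        by_cases h3 : o i0 ≤ z (Sum.inl i0)
        · exact Or.inr fun h4 => hz ⟨h3, h4⟩
        · exact Or.inl h3
      have e1 := h0 z rfl
      have e2 := h0 (z + vk D m) (by rw [Pi.add_apply, vk_inl, add_zero])
      exact ⟨e2.1.trans e1.1.symm, e2.2.trans e1.2.symm⟩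
  have hmu' : (x (z + vk D m)).mu = (x z).mu := by
    funext i
    apply bool_eq (hmu _ i)
    rw [hmu, Pi.add_apply, vk_inl, add_zero]
  have hM' : (x (z + vk D m)).M = (x z).M := by
    apply bool_eq (hM _)
    rw [hM, Pi.add_apply, vk_inl, add_zero]
  have hc' : (x (z + vk D m)).c = (x z).c := by
    refine h1 (Fin D ⊕ Fin 4) A (fun w => (x w).c) (fun j => ∃ i, j = Sum.inl i) ?_ _ _ ?_
    · intro w j hj
      rcases j with i | j
      · exact absurd ⟨i, rfl⟩ hj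
      · exact (h w).c_const j
    · rintro _ ⟨i, rfl⟩
      rw [Pi.add_apply, vk_inl, add_zero]
  have hK' : (x (z + vk D m)).K = (x z).K := by
    refine h1 (Fin D ⊕ Fin 4) Bool (fun w => (x w).K)
      (fun j => (∃ i, j = Sum.inl i) ∨ j = Sum.inr 3) ?_ _ _ ?_
    · intro w j hj
      rcases j with i | j
      · exact absurd (Or.inl ⟨i, rfl⟩) hj
      · exact (h w).K_const j fun h3 => hj (Or.inr (by rw [h3]))
    · rintro _ (⟨i, rfl⟩ | rfl)
      · rw [Pi.add_apply, vk_inl, add_zero]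
      · rw [Pi.add_apply, vk_inr3, add_zero]
  have hO : ((x (z + vk D m)).b, (x (z + vk D m)).cc) = ((x z).b, (x z).cc) := by
    refine h1 (Fin D ⊕ Fin 4) (Bool × Bool) (fun w => ((x w).b, (x w).cc))
      (fun j => (∃ i, j = Sum.inl i) ∨ j = Sum.inr 0) ?_ _ _ ?_
    · intro w j hj
      rcases j with i | j
      · exact absurd (Or.inl ⟨i, rfl⟩) hj
      · obtain ⟨a1, a2⟩ := (h w).O_const j fun h3 => hj (Or.inr (by rw [h3]))
        exact Prod.ext a1 a2
    · rintro _ (⟨i, rfl⟩ | rfl)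
      · rw [Pi.add_apply, vk_inl, add_zero]
      · rw [Pi.add_apply, vk_inr0, add_zero]
  rw [Prod.mk.injEq] at hO
  exact Cell.ext hmu' hc' hM' hK' hST.1 hST.2 hO.1 hO.2

end Pool.Agent.H887R3.SL
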