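import Pool.Agent.H887R3.SL.DefsB

/-! Task SOUND (helper439): soundness. -/

set_option autoImplicit false

namespace Pool.Agent.H887R3.SL

theorem t_SOUND (h1 : S_ORIG) (h2 : S_SYS) (h3 : S_MARK) (h4 : S_SLO) (h5 : S_PPER) :
    S_SOUND := by
  intro D A ok π i0 i1 R hne hR k hs hfin
  obtain ⟨_, x, hL, _, hp⟩ := hs
  -- the configuration is not periodic in the direction `q`
  have e3 : ¬ ∀ z, x (z + ev (Sum.inr 3)) = x z := by
    intro h
    obtain ⟨a, b, hb, hab⟩ := hp _ h
    have h6 := congrFun hab (Sum.inr 3)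
    simp [ev, vk] at h6
    exact hb h6
  obtain ⟨o, ho⟩ := h1 D A ok π i0 i1 x hL e3
  -- and not in the direction `p`
  have e0 : ¬ ∀ z, x (z + ev (Sum.inr 0)) = x z := by
    intro h
    obtain ⟨a, b, hb, hab⟩ := hp _ h
    have h6 := congrFun hab (Sum.inr 0)
    simp [ev, vk] at h6
    exact hb h6
  obtain ⟨m, hm⟩ := h3 D A ok π i0 i1 x o hL ho e0
  have hmk : m = k := by
    obtain ⟨a, b, hb, hab⟩ := hp _ (h4 D A ok π i0 i1 x o m hL ho hm)
    have h6 := congrFun hab (Sum.inr 2)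
    have h7 := congrFun hab (Sum.inr 1)
    simp [vk] at h6 h7
    rw [← h6] at h7
    have h8 : (m : ℤ) = k := mul_left_cancel₀ hb h7
    exact_mod_cast h8
  subst hmk
  obtain ⟨B, hB⟩ := hfin.bddAbove
  have hN : ∀ n, B + 1 ≤ n → R m n = false := by
    intro n hn
    by_contra hcon
    have h6 : R m n = true := by
      cases h7 : R m n
      · exact absurd h7 hcon
      · rfl
    have h8 : n ≤ B := hB h6
    omega
  have hper := h5 D A ok π i0 i1 (R m) x o m (B + 1) hne hL ho hm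
    (fun w n hw hw0 hw1 => h2 D A ok π i0 i1 R x o hR hL ho w m n hw hw0 hw1) hN
  obtain ⟨a, b, hb, hab⟩ := hp _ hper
  have h6 := congrFun hab (Sum.inr 0)
  simp [ev, vk] at h6
  exact hb h6

end Pool.Agent.H887R3.SL
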