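import Pool.Agent.H887R3.SL.Defs

/-!
# The successor is definable
-/

set_option autoImplicit false

namespace Pool.Agent.H887R3.SL

theorem SUCC_off00 (a b : ℕ) : off ![a, b] ![false, false] = ![a, b] := by
  funext i
  fin_cases i <;> simp [off]

theorem SUCC_off11 (a b : ℕ) : off ![a, b] ![true, true] = ![a + 1, b + 1] := by
  funext i
  fin_cases i <;> simp [off]

theorem SUCC_off01 (a b : ℕ) : off ![a, b] ![false, true] = ![a, b + 1] := by
  funext i
  fin_cases i <;> simp [off]

theorem SUCC_vec (w : Fin 2 → ℕ) : w = ![w 0, w 1] := by
  funext i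
  fin_cases i <;> rfl

theorem SUCC_triv : Forced 2 (fun _ : Fin 2 → ℕ => ()) :=
  ⟨Unit, inferInstance, fun _ _ => True, id, ⟨fun _ => (), fun _ => trivial⟩, fun _ _ _ => rfl⟩

theorem SUCC_forced (hL : S_LAYER) : Forced 2 (fun w => decide (w 1 = w 0 + 1)) := by
  refine hL 2 Unit Bool (fun _ => ()) (fun w => decide (w 1 = w 0 + 1))
    (fun zs _ q => (zs 1 = true → q ![false, false] = false) ∧ (q ![true, true] = q ![false, false]) ∧
      (zs 0 = true → q ![false, true] = zs 1)) inferInstance SUCC_triv ?_ ?_
  · intro w
    have hw := SUCC_vec w
    set a := w 0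
    set b := w 1
    rw [hw]
    simp only [SUCC_off00, SUCC_off11, SUCC_off01]
    refine ⟨?_, ?_, ?_⟩
    · intro h
      simp [zp] at h
      simp [h]
    · simp
    · intro h
      simp [zp] at h
      simp [zp, h]
  · intro Q' hQ'
    have key : ∀ a b : ℕ, Q' ![a, b] = decide (b = a + 1) := by
      intro a
      induction a with
      | zero =>
        intro b
        cases b with
        | zero =>
          have h := (hQ' ![0, 0]).1 (by simp [zp])
          simp only [SUCC_off00] at h
          rw [h]
          simp
        | succ b =>
          have h := (hQ' ![0, b]).2.2 (by simp [zp])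
          simp only [SUCC_off01] at h
          rw [h]
          simp [zp]
      | succ a ih =>
        intro b
        cases b with
        | zero =>
          have h := (hQ' ![a + 1, 0]).1 (by simp [zp])
          simp only [SUCC_off00] at h
          rw [h]
          simp
        | succ b =>
          have h := (hQ' ![a, b]).2.1
          simp only [SUCC_off00, SUCC_off11] at h
          rw [h, ih b]
          simp
    intro w
    rw [SUCC_vec w, key]
    rfl

theorem t_SUCC (hL : S_LAYER) : S_SUCC := ⟨0, SUCC_forced hL⟩

end Pool.Agent.H887R3.SL
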