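import Pool.Agent.H887R3.SL.DefsB

/-! Task SYS (helper114): the system is valid in the positive orthant. -/

set_option autoImplicit false

namespace Pool.Agent.H887R3.SL

theorem t_SYS : S_SYS := by
  intro D A ok π i0 i1 R x o hR hL hmu w m n hw hm hn
  set c1 : (Fin D → ℕ) → A :=
    fun v => (x (Sum.elim (fun i => o i + (v i : ℤ)) (fun j => w (Sum.inr j)))).c with hc1
  have hv : Valid ok c1 := by
    intro v
    set w1 : Pos D := Sum.elim (fun i => o i + (v i : ℤ)) (fun j => w (Sum.inr j)) with hw1
    have h := (hL w1).c_ok (fun i => (hmu w1 i).2 (by simp [hw1]))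
    have e1 : (fun i => !(x (w1 - ev (Sum.inl i))).mu i) = zp v := by
      funext i
      have h1 := hmu (w1 - ev (Sum.inl i)) i
      have h2 : (w1 - ev (Sum.inl i)) (Sum.inl i) = o i + (v i : ℤ) - 1 := by
        simp [hw1, ev]
      rw [h2] at h1
      unfold zp
      by_cases h3 : v i = 0
      · have h4 : (x (w1 - ev (Sum.inl i))).mu i ≠ true := fun h5 => by
          have := h1.1 h5
          omega
        simp [h3, h4]
      · have h4 : (x (w1 - ev (Sum.inl i))).mu i = true := h1.2 (by omega)
        simp [h3, h4]
    have e2 : (fun δ => (x (w1 + ofs δ)).c) = fun δ => c1 (off v δ) := by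
      funext δ
      simp only [hc1]
      congr 2
      funext j
      rcases j with i | j
      · simp only [Pi.add_apply, hw1, ofs, Sum.elim_inl, off]
        by_cases h : δ i = true
        · simp [h]; ring
        · simp [h]
      · simp [hw1, ofs]
    rw [e1, e2] at h
    exact h
  have h := hR c1 hv (fun i => (w (Sum.inl i) - o i).toNat)
  have e3 : (Sum.elim (fun i => o i + (((w (Sum.inl i) - o i).toNat : ℕ) : ℤ))
      (fun j => w (Sum.inr j)) : Pos D) = w := by
    funext j
    rcases j with i | j
    · have := hw i
      simp only [Sum.elim_inl]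
      omega
    · rfl
  have e4 : c1 (fun i => (w (Sum.inl i) - o i).toNat) = (x w).c := by
    simp only [hc1]
    rw [e3]
  rw [e4] at h
  rw [h]
  congr 1 <;> omega

end Pool.Agent.H887R3.SL
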