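import Pool.Agent.H887R3.SL.DefsB

/-! Task VCOMP (helper355): the coding of `k` is computable. -/

set_option autoImplicit false

namespace Pool.Agent.H887R3.SL

theorem primrec_natCast_int : Primrec (fun k : ℕ => (k : ℤ)) := by
  rw [← Primrec.encode_iff]
  have h : (fun k : ℕ => Encodable.encode (k : ℤ)) = fun k : ℕ => 2 * k := by
    funext k
    rfl
  rw [h]
  exact Primrec.nat_mul.comp (Primrec.const 2) Primrec.id

theorem t_VCOMP : S_VCOMP := by
  intro D
  refine ⟨?_, fun k => ?_⟩
  · apply Primrec.to_comp
    have h1 : Primrec₂ (fun (j : Fin (D + 4)) (k : ℕ) => vf D k j) := by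
      rw [Primrec.fin_curry₁]
      intro j
      unfold vf
      by_cases h : j = Fin.natAdd D 1
      · simp only [h, if_true]
        exact primrec_natCast_int
      · simp only [h, if_false]
        exact Primrec.const _
    exact Primrec.fin_curry.2 h1.swap
  · funext j
    rcases j with i | i
    · have h1 : ∀ a : Fin 4, Fin.castAdd 4 i ≠ Fin.natAdd D a := by
        intro a h
        have := congrArg Fin.val h
        simp only [Fin.val_castAdd, Fin.val_natAdd] at this
        omega
      simp [vf, vk, h1]
    · have h1 : ∀ a : Fin 4, Fin.natAdd D i = Fin.natAdd D a ↔ i = a := by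
        intro a
        constructor
        · intro h
          have := congrArg Fin.val h
          simp only [Fin.val_natAdd] at this
          exact Fin.ext (by omega)
        · rintro rfl; rfl
      simp only [vf, vk, finSumFinEquiv_apply_right, h1, Sum.inr.injEq]

end Pool.Agent.H887R3.SL
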