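import Pool.Agent.H887R3.SL.DefsB

/-! # WIN: a local condition gives a shift in the format of the frozen statement (helper144) -/

set_option autoImplicit false

namespace Pool.Agent.H887R3.SL

namespace WIN

/-- `0, 1, 2` as elements of `Fin 3` -/
def clip (z : ℤ) : Fin 3 := ⟨z.toNat % 3, Nat.mod_lt _ (by norm_num)⟩

theorem clip_val {z : ℤ} (h0 : 0 ≤ z) (h2 : z ≤ 2) : (((clip z : Fin 3) : ℕ) : ℤ) = z := by
  unfold clip
  simp only
  have h1 : z.toNat % 3 = z.toNat := Nat.mod_eq_of_lt (by omega)
  rw [h1]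
  omega

/-- the configuration of a pattern -/
def XX {D k : ℕ} {C : Type} (e : C ≃ Fin k) (pat : (Fin (D + 4) → Fin 3) → Fin k) : Pos D → C :=
  fun w => e.symm (pat (fun j => clip (w (finSumFinEquiv.symm j) + 1)))

/-- the configuration of a function on `Fin (D + 4) → ℤ` -/
def xof {D k : ℕ} {C : Type} (e : C ≃ Fin k) (y : (Fin (D + 4) → ℤ) → Fin k) : Pos D → C :=
  fun w => e.symm (y (fun j => w (finSumFinEquiv.symm j)))

/-- the window -/
def pat {D k : ℕ} (y : (Fin (D + 4) → ℤ) → Fin k) (z : Fin (D + 4) → ℤ) :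
    (Fin (D + 4) → Fin 3) → Fin k :=
  fun i => y (z + (fun j => ((i j : ℕ) : ℤ)))

theorem win_eq {D k : ℕ} {C : Type} (e : C ≃ Fin k) (y : (Fin (D + 4) → ℤ) → Fin k)
    (z : Fin (D + 4) → ℤ) (δ : Pos D) (hδ : ∀ j, -1 ≤ δ j ∧ δ j ≤ 1) :
    XX e (pat y z) (0 + δ) = xof e y ((fun s => z (finSumFinEquiv s) + 1) + δ) := by
  unfold XX xof pat
  congr 2
  funext j
  simp only [Pi.add_apply, Pi.zero_apply, zero_add, Equiv.apply_symm_apply]
  rw [clip_val (by have := hδ (finSumFinEquiv.symm j); omega)
    (by have := hδ (finSumFinEquiv.symm j); omega)]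
  ring

end WIN

open WIN

theorem t_WIN : S_WIN := by
  intro D C _ L hloc
  obtain ⟨k, ⟨e⟩⟩ := Finite.exists_equiv_fin C
  refine ⟨k, {p | ¬ L (XX e p) 0}, fun v => ?_⟩
  have hwin : ∀ (y : (Fin (D + 4) → ℤ) → Fin k) (z : Fin (D + 4) → ℤ),
      L (XX e (pat y z)) 0 ↔ L (xof e y) (fun s => z (finSumFinEquiv s) + 1) := by
    intro y z
    constructor
    · exact hloc _ _ _ _ (fun δ hδ => win_eq e y z δ hδ)
    · exact hloc _ _ _ _ (fun δ hδ => (win_eq e y z δ hδ).symm)
  have hall : ∀ y : (Fin (D + 4) → ℤ) → Fin k,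
      (∀ z : Fin (D + 4) → ℤ, (fun i : Fin (D + 4) → Fin 3 => y (z + (fun j => ((i j : ℕ) : ℤ)))) ∉
        {p | ¬ L (XX e p) 0}) ↔ ∀ w, L (xof e y) w := by
    intro y
    constructor
    · intro h w
      have h1 := h (fun j => w (finSumFinEquiv.symm j) - 1)
      have h2 : L (XX e (pat y (fun j => w (finSumFinEquiv.symm j) - 1))) 0 := by
        by_contra hcon
        exact h1 hcon
      rw [hwin] at h2
      have h3 : (fun s : Fin D ⊕ Fin 4 =>
          w (finSumFinEquiv.symm (finSumFinEquiv s)) - 1 + 1) = w := by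
        funext s
        simp
      rw [h3] at h2
      exact h2
    · intro h z hz
      exact hz ((hwin y z).2 (h _))
  have hper : ∀ (y : (Fin (D + 4) → ℤ) → Fin k) (u : Fin (D + 4) → ℤ),
      (∀ z, y (z + u) = y z) ↔
        ∀ z, xof e y (z + (fun s => u (finSumFinEquiv s))) = xof e y z := by
    intro y u
    constructor
    · intro h z
      unfold xof
      congr 1
      have h1 : (fun j => (z + (fun s => u (finSumFinEquiv s)) : Pos D) (finSumFinEquiv.symm j))
          = (fun j => z (finSumFinEquiv.symm j)) + u := by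
        funext j
        simp
      rw [h1]
      exact h _
    · intro h z
      have h1 := h (fun s => z (finSumFinEquiv s))
      unfold xof at h1
      have h2 := e.symm.injective h1
      have h3 : (fun j => ((fun s => z (finSumFinEquiv s)) + (fun s => u (finSumFinEquiv s)) : Pos D)
          (finSumFinEquiv.symm j)) = z + u := by
        funext j
        simp
      have h4 : (fun j => z (finSumFinEquiv (finSumFinEquiv.symm j))) = z := by
        funext j
        simp
      rw [h3, h4] at h2
      exact h2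
  have hperPos : ∀ (y : (Fin (D + 4) → ℤ) → Fin k) (u : Pos D),
      (∀ z, xof e y (z + u) = xof e y z) ↔
        ∀ z, y (z + (fun j => u (finSumFinEquiv.symm j))) = y z := by
    intro y u
    rw [hper]
    have h1 : (fun s => (fun j => u (finSumFinEquiv.symm j)) (finSumFinEquiv s)) = u := by
      funext s
      simp
    rw [h1]
  have hne : v ≠ 0 ↔ (fun j => v (finSumFinEquiv j)) ≠ (0 : Pos D) := by
    rw [not_iff_not]
    constructor
    · intro h
      funext j
      rw [h]; rfl
    · intro h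
      funext j
      have h1 := congrFun h (finSumFinEquiv.symm j)
      simpa using h1
  have hsurj : ∀ x : Pos D → C, ∃ y, xof e y = x := by
    intro x
    refine ⟨fun z => e (x (fun s => z (finSumFinEquiv s))), ?_⟩
    funext w
    unfold xof
    simp
  have hbody : ∀ y : (Fin (D + 4) → ℤ) → Fin k,
      ((∀ z : Fin (D + 4) → ℤ, (fun i : Fin (D + 4) → Fin 3 => y (z + (fun j => ((i j : ℕ) : ℤ)))) ∉
        {p | ¬ L (XX e p) 0}) ∧
      (∃ w : Fin (D + 4) → ℤ, w ≠ 0 ∧ ∀ z, y (z + w) = y z) ∧
      ∀ u : Fin (D + 4) → ℤ, (∀ z, y (z + u) = y z) → ∃ a b : ℤ, b ≠ 0 ∧ b • u = a • v) ↔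
      ((∀ w, L (xof e y) w) ∧ (∃ w : Pos D, w ≠ 0 ∧ ∀ z, xof e y (z + w) = xof e y z) ∧
        ∀ u : Pos D, (∀ z, xof e y (z + u) = xof e y z) →
          ∃ a b : ℤ, b ≠ 0 ∧ b • u = a • (fun j => v (finSumFinEquiv j) : Pos D)) := by
    intro y
    refine and_congr (hall y) (and_congr ?_ ?_)
    · constructor
      · rintro ⟨w, hw, h⟩
        refine ⟨fun s => w (finSumFinEquiv s), ?_, (hper y w).1 h⟩
        intro h1
        apply hw
        funext j
        have h2 := congrFun h1 (finSumFinEquiv.symm j)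
        simpa using h2
      · rintro ⟨w, hw, h⟩
        refine ⟨fun j => w (finSumFinEquiv.symm j), ?_, (hperPos y w).1 h⟩
        intro h1
        apply hw
        funext s
        have h2 := congrFun h1 (finSumFinEquiv s)
        simpa using h2
    · constructor
      · intro h u hu
        obtain ⟨a, b, hb, hab⟩ := h _ ((hperPos y u).1 hu)
        refine ⟨a, b, hb, ?_⟩
        funext s
        have h2 := congrFun hab (finSumFinEquiv s)
        simpa using h2
      · intro h u hu
        obtain ⟨a, b, hb, hab⟩ := h _ ((hper y u).1 hu)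
        refine ⟨a, b, hb, ?_⟩
        funext j
        have h2 := congrFun hab (finSumFinEquiv.symm j)
        simpa using h2
  unfold Slope
  refine and_congr hne ?_
  constructor
  · rintro ⟨y, hy⟩
    exact ⟨xof e y, (hbody y).1 hy⟩
  · rintro ⟨x, hx⟩
    obtain ⟨y, rfl⟩ := hsurj x
    exact ⟨y, (hbody y).2 hx⟩

end Pool.Agent.H887R3.SL
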