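import Pool.Agent.H887R3.SL.Defs

set_option autoImplicit false

namespace Pool.Agent.H887R3.SL

theorem zero_aux : S_ZERO := by
  refine ⟨0, Bool, inferInstance, fun z win => win (fun _ => false) = z 0, id, ?_, ?_⟩
  · refine ⟨fun w => decide (w 0 = 0), fun w => ?_⟩
    simp [off, zp]
  · intro c hc w
    have h := hc w
    have h1 : off w (fun _ => false) = w := by
      funext i
      simp [off]
    simp only [h1] at h
    rw [id, h]
    rfl

theorem t_ZERO (_ : S_LAYER) : S_ZERO := zero_aux

end Pool.Agent.H887R3.SL
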