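import Pool.Agent.H887R3.SL.ASM
import Pool.Agent.H887R3.SL.PROD
import Pool.Agent.H887R3.SL.PI
import Pool.Agent.H887R3.SL.MAP
import Pool.Agent.H887R3.SL.LAYER
import Pool.Agent.H887R3.SL.LIFT
import Pool.Agent.H887R3.SL.MONO
import Pool.Agent.H887R3.SL.COMMON
import Pool.Agent.H887R3.SL.BOOL
import Pool.Agent.H887R3.SL.RENAME
import Pool.Agent.H887R3.SL.ELIM
import Pool.Agent.H887R3.SL.DIAG
import Pool.Agent.H887R3.SL.ZERO
import Pool.Agent.H887R3.SL.SUCC
import Pool.Agent.H887R3.SL.COMP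
import Pool.Agent.H887R3.SL.PREC
import Pool.Agent.H887R3.SL.PRIM
import Pool.Agent.H887R3.SL.REL
import Pool.Agent.H887R3.SL.EVPRIM
import Pool.Agent.H887R3.SL.EVINF
import Pool.Agent.H887R3.SL.CONST
import Pool.Agent.H887R3.SL.ORIG
import Pool.Agent.H887R3.SL.SYS
import Pool.Agent.H887R3.SL.MARK
import Pool.Agent.H887R3.SL.SLO
import Pool.Agent.H887R3.SL.ODOP
import Pool.Agent.H887R3.SL.ODOE
import Pool.Agent.H887R3.SL.PPER
import Pool.Agent.H887R3.SL.SOUND
import Pool.Agent.H887R3.SL.CVAL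
import Pool.Agent.H887R3.SL.CPER
import Pool.Agent.H887R3.SL.COMPL
import Pool.Agent.H887R3.SL.LOCAL
import Pool.Agent.H887R3.SL.WIN
import Pool.Agent.H887R3.SL.VCOMP
import Pool.Agent.H887R3.SL.FIN

/-!
# Slopes of periodicity (MP_af28f6_lc): the final theorem
-/

set_option autoImplicit false

namespace Pool.Agent.H887R3.SL

theorem prod' : S_PROD := t_PROD
theorem pi' : S_PI := t_PI
theorem map' : S_MAP := t_MAP
theorem layer' : S_LAYER := t_LAYER
theorem lift' : S_LIFT := t_LIFT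
theorem mono' : S_MONO := t_MONO lift'
theorem common' : S_COMMON := t_COMMON mono' pi'
theorem bool' : S_BOOL := t_BOOL common' map'
theorem rename' : S_RENAME := t_RENAME lift'
theorem elim' : S_ELIM := t_ELIM common' layer' lift'
theorem diag' : S_DIAG := t_DIAG
theorem zero' : S_ZERO := t_ZERO layer'
theorem succ' : S_SUCC := t_SUCC layer'
theorem comp' : S_COMP := t_COMP elim' rename' bool'
theorem prec' : S_PREC := t_PREC common' rename' layer' lift' map' diag'
theorem prim' : S_PRIM := t_PRIM comp' prec' rename' diag' zero' succ'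
theorem rel' : S_REL := t_REL prim' elim' rename' bool' zero'
theorem const' : S_CONST := t_CONST
theorem sound' : S_SOUND := t_SOUND (t_ORIG const') t_SYS (t_MARK const') (t_SLO const') (t_PPER t_ODOP)
theorem compl' : S_COMPL := t_COMPL t_ODOE t_CVAL t_CPER

theorem final :
    ¬ (∀ (d : ℕ), 3 ≤ d → ∀ (k n : ℕ) (F : Set ((Fin d → Fin n) → Fin k)),
      ∃ R : (Fin d → ℤ) × ℕ × ℕ → Prop, ComputablePred R ∧
        ∀ v : Fin d → ℤ,
          (v ≠ 0 ∧ ∃ x : (Fin d → ℤ) → Fin k,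
              (∀ z : Fin d → ℤ,
                (fun i : Fin d → Fin n => x (z + (fun j => ((i j : ℕ) : ℤ)))) ∉ F) ∧
              (∃ w : Fin d → ℤ, w ≠ 0 ∧ ∀ z, x (z + w) = x z) ∧
              ∀ u : Fin d → ℤ, (∀ z, x (z + u) = x z) →
                ∃ a b : ℤ, b ≠ 0 ∧ b • u = a • v)
          ↔ ∃ a : ℕ, ∀ b : ℕ, R (v, a, b)) :=
  t_ASM rel' t_EVPRIM t_EVINF sound' compl' t_LOCAL t_WIN t_VCOMP t_FIN

end Pool.Agent.H887R3.SL
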